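import Pool.Agent.Helper38_Coxeter.Positivity

set_option autoImplicit false

/-!
# Roots, reflections and inversions
-/

open Module

namespace Pool.Agent.Helper38_Coxeter

variable {B W : Type*} [Group W] {M : CoxeterMatrix B} (cs : CoxeterSystem M W)

/-- `γ` is a root. -/
def IsRoot (γ : B →₀ ℝ) : Prop := ∃ (w : W) (i : B), γ = rho cs w (sr i)

/-- `t` is the reflection attached to the root `γ`. -/
def RefOf (t : W) (γ : B →₀ ℝ) : Prop :=
  ∃ (w : W) (i : B), t = w * cs.simple i * w⁻¹ ∧ γ = rho cs w (sr i)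

variable {cs}

lemma RefOf.isRoot {t : W} {γ : B →₀ ℝ} (h : RefOf cs t γ) : IsRoot cs γ := by
  obtain ⟨w, i, _, h⟩ := h
  exact ⟨w, i, h⟩

lemma RefOf.isReflection {t : W} {γ : B →₀ ℝ} (h : RefOf cs t γ) : cs.IsReflection t := by
  obtain ⟨w, i, h, _⟩ := h
  exact ⟨w, i, h⟩

lemma IsRoot.exists_refOf {γ : B →₀ ℝ} (h : IsRoot cs γ) : ∃ t, RefOf cs t γ := by
  obtain ⟨w, i, h⟩ := h
  exact ⟨_, w, i, rfl, h⟩

lemma refOf_simple (i : B) : RefOf cs (cs.simple i) (sr i) := ⟨1, i, by simp, by simp⟩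

lemma isRoot_sr (i : B) : IsRoot cs (sr i) := (refOf_simple i).isRoot

lemma IsRoot.rho {γ : B →₀ ℝ} (h : IsRoot cs γ) (g : W) : IsRoot cs (rho cs g γ) := by
  obtain ⟨w, i, rfl⟩ := h
  exact ⟨g * w, i, by rw [map_mul, LinearEquiv.mul_apply]⟩

lemma RefOf.conj {t : W} {γ : B →₀ ℝ} (h : RefOf cs t γ) (g : W) :
    RefOf cs (g * t * g⁻¹) (rho cs g γ) := by
  obtain ⟨w, i, rfl, rfl⟩ := h
  exact ⟨g * w, i, by group, by rw [map_mul, LinearEquiv.mul_apply]⟩

lemma IsRoot.nn_or {γ : B →₀ ℝ} (h : IsRoot cs γ) : NN γ ∨ NN (-γ) := by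
  obtain ⟨w, i, rfl⟩ := h
  by_cases hd : cs.IsRightDescent w i
  · exact Or.inr (NN_neg_rho_sr cs hd)
  · exact Or.inl (NN_rho_sr cs hd)

lemma IsRoot.bil_self {γ : B →₀ ℝ} (h : IsRoot cs γ) : bil M γ γ = 1 := by
  obtain ⟨w, i, rfl⟩ := h
  rw [bil_rho, bil_sr_sr, gram_self]

lemma IsRoot.ne_zero {γ : B →₀ ℝ} (h : IsRoot cs γ) : γ ≠ 0 := by
  rintro rfl
  have := h.bil_self
  simp at this

lemma IsRoot.not_both {γ : B →₀ ℝ} (h : IsRoot cs γ) (h1 : NN γ) (h2 : NN (-γ)) : False :=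
  h.ne_zero (h1.eq_zero h2)

lemma sig_self (i : B) : sig M i (sr i) = - sr i := by
  rw [sig_apply, bil_sr_sr, gram_self]
  module

lemma RefOf.neg {t : W} {γ : B →₀ ℝ} (h : RefOf cs t γ) : RefOf cs t (-γ) := by
  obtain ⟨w, i, rfl, rfl⟩ := h
  refine ⟨w * cs.simple i, i, ?_, ?_⟩
  · simp [mul_assoc]
  · rw [map_mul, LinearEquiv.mul_apply, rho_simple, sig_self, map_neg]

lemma IsRoot.neg {γ : B →₀ ℝ} (h : IsRoot cs γ) : IsRoot cs (-γ) := by
  obtain ⟨t, ht⟩ := h.exists_refOf
  exact ht.neg.isRoot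

lemma RefOf.rho_apply {t : W} {γ : B →₀ ℝ} (h : RefOf cs t γ) (v : B →₀ ℝ) :
    rho cs t v = v - (2 * bil M γ v) • γ := by
  obtain ⟨w, i, rfl, rfl⟩ := h
  have hw : rho cs w (rho cs w⁻¹ v) = v := by
    rw [← LinearEquiv.mul_apply, ← map_mul, mul_inv_cancel, map_one, LinearEquiv.coe_one, id_eq]
  have hb : bil M (rho cs w (sr i)) v = bil M (sr i) (rho cs w⁻¹ v) := by
    conv_lhs => rw [← hw]
    rw [bil_rho]
  rw [map_mul, map_mul, LinearEquiv.mul_apply, LinearEquiv.mul_apply, rho_simple, sig_apply,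
    map_sub, map_smul, hw, hb]

lemma RefOf.rho_self {t : W} {γ : B →₀ ℝ} (h : RefOf cs t γ) : rho cs t γ = -γ := by
  rw [h.rho_apply, h.isRoot.bil_self]
  module

lemma faithful {w : W} (h : rho cs w = 1) : w = 1 := by
  by_contra hw
  obtain ⟨j, hj⟩ := cs.exists_rightDescent_of_ne_one hw
  have h1 := NN_neg_rho_sr cs hj
  rw [h, LinearEquiv.coe_one, id_eq] at h1
  exact (isRoot_sr (cs := cs) j).not_both (NN_sr j) h1

lemma rho_injective : Function.Injective (rho cs) := by
  rw [injective_iff_map_eq_one]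
  intro w hw
  exact faithful hw

lemma RefOf.unique {t t' : W} {γ : B →₀ ℝ} (h : RefOf cs t γ) (h' : RefOf cs t' γ) : t = t' := by
  apply rho_injective
  ext1 v
  rw [h.rho_apply, h'.rho_apply]

/-- If all simple roots stay nonnegative then `w = 1`. -/
lemma eq_one_of_forall_NN {w : W} (h : ∀ i, NN (rho cs w (sr i))) : w = 1 := by
  by_contra hw
  obtain ⟨j, hj⟩ := cs.exists_rightDescent_of_ne_one hw
  exact ((isRoot_sr j).rho w).not_both (h j) (NN_neg_rho_sr cs hj)

lemma exists_refOf {t : W} (h : cs.IsReflection t) : ∃ γ, RefOf cs t γ ∧ NN γ := by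
  obtain ⟨w, i, rfl⟩ := h
  have h0 : RefOf cs (w * cs.simple i * w⁻¹) (rho cs w (sr i)) := ⟨w, i, rfl, rfl⟩
  rcases h0.isRoot.nn_or with h | h
  · exact ⟨_, h0, h⟩
  · exact ⟨_, h0.neg, h⟩

/-- A simple reflection permutes the positive roots other than its own root. -/
lemma NN_sig {γ : B →₀ ℝ} (h : IsRoot cs γ) (hγ : NN γ) (j : B) (hne : γ ≠ sr j) :
    NN (sig M j γ) := by
  classical
  have hr : IsRoot cs (sig M j γ) := by
    rw [← rho_simple cs]; exact h.rho _
  rcases hr.nn_or with h1 | h1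
  · exact h1
  exfalso
  have hcoord : ∀ b, b ≠ j → γ b = 0 := by
    intro b hb
    have h2 := h1 b
    have h3 := hγ b
    rw [sig_apply, Finsupp.neg_apply, Finsupp.sub_apply, Finsupp.smul_apply, sr,
      Finsupp.single_apply, if_neg (Ne.symm hb)] at h2
    simp only [smul_eq_mul, mul_zero, sub_zero] at h2
    linarith
  have hγj : γ = γ j • sr j := by
    ext b
    rw [Finsupp.smul_apply, sr, Finsupp.single_apply]
    by_cases hb : b = j
    · subst hb; simp
    · rw [if_neg (Ne.symm hb), hcoord b hb]; simp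
  have hb := h.bil_self
  rw [hγj] at hb
  simp only [map_smul, LinearMap.smul_apply, bil_sr_sr, gram_self, smul_eq_mul, mul_one] at hb
  have h4 : γ j = 1 := by
    have h5 := hγ j
    nlinarith
  apply hne
  rw [hγj, h4, one_smul]

/-- The root criterion for inversions, direct direction. -/
lemma length_lt_of_NN_neg {t : W} {γ : B →₀ ℝ} (ht : RefOf cs t γ) (hγ : NN γ) {g : W}
    (hg : NN (-(rho cs g⁻¹ γ))) : cs.length (t * g) < cs.length g := by
  induction hn : cs.length g using Nat.strong_induction_on generalizing g t γ with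
  | _ n ih =>
  have hg1 : g ≠ 1 := by
    rintro rfl
    rw [inv_one, map_one, LinearEquiv.coe_one, id_eq] at hg
    exact ht.isRoot.not_both hγ hg
  obtain ⟨j, hj⟩ := cs.exists_leftDescent_of_ne_one hg1
  have hlen := (cs.isLeftDescent_iff).1 hj
  by_cases hγj : γ = sr j
  · subst hγj
    have : t = cs.simple j := ht.unique (refOf_simple j)
    rw [this]
    omega
  · have h1 : NN (rho cs (cs.simple j) γ) := by
      rw [rho_simple]; exact NN_sig ht.isRoot hγ j hγj
    have h2 := ht.conj (cs.simple j)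
    have h3 : NN (-(rho cs (cs.simple j * g)⁻¹ (rho cs (cs.simple j) γ))) := by
      rw [← LinearEquiv.mul_apply, ← map_mul]
      simpa [mul_assoc] using hg
    have h4 := ih _ (by omega) h2 h1 h3 rfl
    have h5 : t * g = cs.simple j * ((cs.simple j * t * (cs.simple j)⁻¹) * (cs.simple j * g)) := by
      simp [mul_assoc]
    rw [h5]
    have h6 := cs.length_mul_le (cs.simple j)
      ((cs.simple j * t * (cs.simple j)⁻¹) * (cs.simple j * g))
    rw [cs.length_simple] at h6
    omega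

lemma length_gt_of_NN {t : W} {γ : B →₀ ℝ} (ht : RefOf cs t γ) (hγ : NN γ) {g : W}
    (hg : NN (rho cs g⁻¹ γ)) : cs.length g < cs.length (t * g) := by
  have hinv : t⁻¹ = t := ht.isReflection.inv
  have h1 : NN (-(rho cs (t * g)⁻¹ γ)) := by
    rw [mul_inv_rev, hinv, map_mul, LinearEquiv.mul_apply, ht.rho_self, map_neg, neg_neg]
    exact hg
  have h2 := length_lt_of_NN_neg ht hγ h1
  rwa [← mul_assoc, ht.isReflection.mul_self, one_mul] at h2

/-- Inversion sets are finite. -/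
lemma finite_inversions (g : W) : {γ | IsRoot cs γ ∧ NN γ ∧ NN (-(rho cs g γ))}.Finite := by
  induction g using cs.simple_induction_right with
  | one =>
    convert! Set.finite_empty
    ext γ
    simp only [map_one, LinearEquiv.coe_one, id_eq, Set.mem_ofPred_eq, Set.mem_empty_iff_false,
      iff_false]
    rintro ⟨h1, h2, h3⟩
    exact h1.not_both h2 h3
  | mul_simple_right g i ih =>
    refine ((ih.image (sig M i)).union (Set.finite_singleton (sr i))).subset ?_
    rintro γ ⟨h1, h2, h3⟩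
    by_cases hγ : γ = sr i
    · right; exact hγ
    · left
      refine ⟨sig M i γ, ⟨?_, NN_sig h1 h2 i hγ, ?_⟩, ?_⟩
      · rw [← rho_simple cs]; exact h1.rho _
      · rw [map_mul, LinearEquiv.mul_apply, rho_simple] at h3
        exact h3
      · rw [← LinearEquiv.mul_apply, sig_mul_sig_self, LinearEquiv.coe_one, id_eq]

end Pool.Agent.Helper38_Coxeter
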