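import Pool.Agent.Helper38_Coxeter.GeomRep

set_option autoImplicit false

/-!
# Positivity of roots and length
-/

open Module Polynomial.Chebyshev

namespace Pool.Agent.Helper38_Coxeter

variable {B W : Type*} [Group W] {M : CoxeterMatrix B} (cs : CoxeterSystem M W)

/-- The geometric representation. -/
noncomputable def rho : W →* ((B →₀ ℝ) ≃ₗ[ℝ] (B →₀ ℝ)) := cs.lift ⟨sig M, sig_isLiftable M⟩

lemma rho_simple (i : B) : rho cs (cs.simple i) = sig M i := cs.lift_apply_simple _ i

lemma bil_sig (i : B) (u v : B →₀ ℝ) : bil M (sig M i u) (sig M i v) = bil M u v := by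
  simp only [sig_apply, map_sub, map_smul, LinearMap.sub_apply, LinearMap.smul_apply, bil_sr_sr,
    gram_self, smul_eq_mul, bil_symm M u (sr i)]
  ring

lemma bil_rho (w : W) (u v : B →₀ ℝ) : bil M (rho cs w u) (rho cs w v) = bil M u v := by
  induction w using cs.simple_induction_left generalizing u v with
  | one => simp
  | mul_simple_left w i ih =>
    rw [map_mul, rho_simple, LinearEquiv.mul_apply, LinearEquiv.mul_apply, bil_sig, ih]

/-- Nonnegative vectors. -/
def NN (v : B →₀ ℝ) : Prop := ∀ b, 0 ≤ v b

lemma NN.add {u v : B →₀ ℝ} (hu : NN u) (hv : NN v) : NN (u + v) := fun b => by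
  rw [Finsupp.add_apply]; exact add_nonneg (hu b) (hv b)

lemma NN.smul {u : B →₀ ℝ} (hu : NN u) {c : ℝ} (hc : 0 ≤ c) : NN (c • u) := fun b => by
  rw [Finsupp.smul_apply]; exact mul_nonneg hc (hu b)

lemma NN_sr (i : B) : NN (sr i) := fun b => by
  classical
  rw [sr, Finsupp.single_apply]; split_ifs <;> norm_num

lemma NN.eq_zero {u : B →₀ ℝ} (hu : NN u) (hu' : NN (-u)) : u = 0 := by
  ext b
  have h1 := hu b
  have h2 := hu' b
  rw [Finsupp.neg_apply] at h2
  simp only [Finsupp.coe_zero, Pi.zero_apply]
  linarith

/-- Values of the Chebyshev polynomials `U_k(cos (π/m))`. -/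
noncomputable def ch (i j : B) (k : ℤ) : ℝ := (S ℝ k).eval (2 * Real.cos (Real.pi / M i j))

lemma ch_zero (i j : B) : ch (M := M) i j 0 = 1 := by simp [ch]
lemma ch_neg_one (i j : B) : ch (M := M) i j (-1) = 0 := by simp [ch]
lemma ch_add_two (i j : B) (k : ℤ) : ch (M := M) i j (k + 2) =
    2 * Real.cos (Real.pi / M i j) * ch (M := M) i j (k + 1) - ch (M := M) i j k := by
  simp [ch, S_add_two]

lemma ch_nonneg (i j : B) (hij : i ≠ j) (k : ℕ) (hk : M i j = 0 ∨ k ≤ M i j) :
    0 ≤ ch (M := M) i j ((k : ℤ) - 1) := by
  rcases Nat.eq_zero_or_pos (M i j) with h0 | hpos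
  · simp only [ch, h0, Nat.cast_zero, div_zero, Real.cos_zero, mul_one]
    rw [S_eval_two]
    push_cast
    have : (0 : ℝ) ≤ k := Nat.cast_nonneg k
    linarith
  · have hk' : k ≤ M i j := by
      rcases hk with h | h
      · omega
      · exact h
    have hne1 : M i j ≠ 1 := M.off_diagonal i j hij
    have h2 : 2 ≤ M i j := by omega
    have hsin := sin_pi_div_pos h2
    have h := S_two_mul_real_cos (Real.pi / M i j) ((k : ℤ) - 1)
    have e : ((((k : ℤ) - 1 : ℤ) : ℝ) + 1) * (Real.pi / M i j) = Real.pi * (k / M i j) := by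
      push_cast; ring
    rw [e] at h
    have hnn : 0 ≤ Real.sin (Real.pi * (k / M i j)) := by
      apply Real.sin_nonneg_of_nonneg_of_le_pi
      · have := Real.pi_pos; positivity
      · have hm : (0 : ℝ) < M i j := by exact_mod_cast hpos
        have : (k : ℝ) / M i j ≤ 1 := by
          rw [div_le_one hm]; exact_mod_cast hk'
        nlinarith [Real.pi_pos]
    rw [← h] at hnn
    exact nonneg_of_mul_nonneg_left hnn hsin

/-- The action of alternating words (ending in `j`) on the simple root `α_i`. -/
lemma rho_alternatingWord_sr (i j : B) (k : ℕ) :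
    rho cs (cs.wordProd (CoxeterSystem.alternatingWord i j k)) (sr i) =
      if Even k then ch (M := M) i j k • sr i + ch (M := M) i j (k - 1) • sr j
      else ch (M := M) i j k • sr j + ch (M := M) i j (k - 1) • sr i := by
  induction k with
  | zero => simp [ch_zero, ch_neg_one, CoxeterSystem.alternatingWord]
  | succ k ih =>
    rw [CoxeterSystem.alternatingWord_succ', cs.wordProd_cons, map_mul, LinearEquiv.mul_apply, ih]
    have e2 := ch_add_two (M := M) i j (k - 1)
    have e3 : ((k : ℤ) - 1 + 2) = k + 1 := by ring
    have e4 : ((k : ℤ) - 1 + 1) = k := by ring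
    rw [e3, e4] at e2
    have g1 : gram M i j = - Real.cos (Real.pi / M i j) := rfl
    have g2 : gram M j i = - Real.cos (Real.pi / M i j) := by rw [gram_symm, g1]
    rcases Nat.even_or_odd k with hk | hk
    · have hk1 : ¬ Even (k + 1) := by
        rw [Nat.even_add_one]; simpa using hk
      rw [if_pos hk, if_pos hk, if_neg hk1, rho_simple]
      simp only [sig_apply, map_add, map_smul, bil_sr_sr, gram_self, g2]
      push_cast
      rw [e2, show ((k : ℤ) + 1 - 1) = k by ring]
      module
    · have hk0 : ¬ Even k := Nat.not_even_iff_odd.2 hk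
      have hk1 : Even (k + 1) := by
        rw [Nat.even_add_one]; exact hk0
      rw [if_neg hk0, if_neg hk0, if_pos hk1, rho_simple]
      simp only [sig_apply, map_add, map_smul, bil_sr_sr, gram_self, g1]
      push_cast
      rw [e2, show ((k : ℤ) + 1 - 1) = k by ring]
      module

/-- Decomposition of `w` along a rank two standard parabolic, with right ascents in both
directions. -/
lemma exists_decomp (w : W) (i j : B) (hj : cs.IsRightDescent w j) :
    ∃ (v : W) (k : ℕ), 0 < k ∧ w = v * cs.wordProd (CoxeterSystem.alternatingWord i j k) ∧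
      cs.length w = cs.length v + k ∧ ¬ cs.IsRightDescent v i ∧ ¬ cs.IsRightDescent v j := by
  classical
  let P : ℕ → Prop := fun k => ∃ v, w = v * cs.wordProd (CoxeterSystem.alternatingWord i j k) ∧
      cs.length w = cs.length v + k
  have hP1 : P 1 := by
    refine ⟨w * cs.simple j, ?_, ?_⟩
    · simp [CoxeterSystem.alternatingWord, CoxeterSystem.wordProd_cons, mul_assoc]
    · exact ((cs.isRightDescent_iff).1 hj).symm
  have hbound : ∀ k, P k → k ≤ cs.length w := by
    rintro k ⟨v, _, h⟩
    omega
  have hw1 : 1 ≤ cs.length w := hbound 1 hP1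
  set n := Nat.findGreatest P (cs.length w) with hn
  have hPn : P n := Nat.findGreatest_spec hw1 hP1
  have hn1 : 1 ≤ n := Nat.le_findGreatest hw1 hP1
  have hmax : ¬ P (n + 1) := by
    intro h
    have h1 := hbound _ h
    have h2 := Nat.le_findGreatest h1 h
    omega
  obtain ⟨v, hv, hlen⟩ := hPn
  refine ⟨v, n, hn1, hv, hlen, ?_⟩
  clear_value n
  -- the next letter (call it y) is an ascent by maximality
  have hnext : ¬ cs.IsRightDescent v (if Even n then j else i) := by
    intro hd
    apply hmax
    refine ⟨v * cs.simple (if Even n then j else i), ?_, ?_⟩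
    · rw [CoxeterSystem.alternatingWord_succ', cs.wordProd_cons, hv]
      simp [mul_assoc]
    · rw [hlen, ← (cs.isRightDescent_iff).1 hd]
      omega
  have hfirst : ¬ cs.IsRightDescent v (if Even n then i else j) := by
    intro hd
    obtain ⟨n', rfl⟩ : ∃ n', n = n' + 1 := ⟨n - 1, by omega⟩
    have hpar : (if Even (n' + 1) then i else j) = (if Even n' then j else i) := by
      rcases Nat.even_or_odd n' with h | h
      · have : ¬ Even (n' + 1) := by rw [Nat.even_add_one]; simpa using h
        rw [if_neg this, if_pos h]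
      · have h0 : ¬ Even n' := Nat.not_even_iff_odd.2 h
        have : Even (n' + 1) := by rw [Nat.even_add_one]; exact h0
        rw [if_pos this, if_neg h0]
    rw [hpar] at hd
    rw [CoxeterSystem.alternatingWord_succ', cs.wordProd_cons, ← mul_assoc] at hv
    have h1 : cs.length w ≤ cs.length (v * cs.simple (if Even n' then j else i)) + n' := by
      rw [hv]
      refine (cs.length_mul_le _ _).trans ?_
      have := cs.length_wordProd_le (CoxeterSystem.alternatingWord i j n')
      rw [CoxeterSystem.length_alternatingWord] at this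
      omega
    have h2 := (cs.isRightDescent_iff).1 hd
    omega
  rcases Nat.even_or_odd n with h | h
  · rw [if_pos h] at hnext hfirst
    exact ⟨hfirst, hnext⟩
  · have h0 : ¬ Even n := Nat.not_even_iff_odd.2 h
    rw [if_neg h0] at hnext hfirst
    exact ⟨hnext, hfirst⟩

/-- If `i` is not a right descent of `w` then `w α_i` is nonnegative. -/
theorem NN_rho_sr {w : W} {i : B} (h : ¬ cs.IsRightDescent w i) : NN (rho cs w (sr i)) := by
  induction hn : cs.length w using Nat.strong_induction_on generalizing w i with
  | _ n ih =>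
  by_cases hw : w = 1
  · subst hw
    simpa using NN_sr i
  obtain ⟨j, hj⟩ := cs.exists_rightDescent_of_ne_one hw
  have hij : i ≠ j := fun e => h (e ▸ hj)
  obtain ⟨v, k, hk, hwv, hlen, hvi, hvj⟩ := exists_decomp cs w i j hj
  have hi := ih (cs.length v) (by omega) hvi rfl
  have hjj := ih (cs.length v) (by omega) hvj rfl
  -- the alternating word of length k + 1 (ending in i) is reduced
  have hkM : M i j = 0 ∨ k + 1 ≤ M i j := by
    by_contra hcon
    push Not at hcon
    obtain ⟨hM0, hlt⟩ := hcon
    have h1 : cs.length (w * cs.simple i) = cs.length w + 1 := (cs.not_isRightDescent_iff).1 h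
    have h2 : w * cs.simple i = v * cs.wordProd (CoxeterSystem.alternatingWord j i (k + 1)) := by
      rw [CoxeterSystem.alternatingWord_succ, cs.wordProd_concat, ← mul_assoc, ← hwv]
    have hM' : M j i ≠ 0 := by rw [M.symmetric]; exact hM0
    have hnr := cs.not_isReduced_alternatingWord j i (m := k + 1) hM' (by rw [M.symmetric]; omega)
    have h3 := cs.length_wordProd_le (CoxeterSystem.alternatingWord j i (k + 1))
    rw [CoxeterSystem.length_alternatingWord] at h3
    have h4 : cs.length (cs.wordProd (CoxeterSystem.alternatingWord j i (k + 1))) ≠ k + 1 := by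
      intro e
      apply hnr
      unfold CoxeterSystem.IsReduced
      rw [CoxeterSystem.length_alternatingWord]
      exact e
    have h5 := cs.length_mul_le v (cs.wordProd (CoxeterSystem.alternatingWord j i (k + 1)))
    rw [← h2, h1] at h5
    omega
  have c1 : 0 ≤ ch (M := M) i j k := by
    have := ch_nonneg (M := M) i j hij (k + 1) hkM
    simpa using this
  have c2 : 0 ≤ ch (M := M) i j (k - 1) :=
    ch_nonneg (M := M) i j hij k (hkM.imp id (fun h => by omega))
  rw [hwv, map_mul, LinearEquiv.mul_apply, rho_alternatingWord_sr]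
  split_ifs
  · rw [map_add, map_smul, map_smul]
    exact (hi.smul c1).add (hjj.smul c2)
  · rw [map_add, map_smul, map_smul]
    exact (hjj.smul c1).add (hi.smul c2)

/-- If `i` is a right descent of `w` then `w α_i` is nonpositive. -/
theorem NN_neg_rho_sr {w : W} {i : B} (h : cs.IsRightDescent w i) : NN (-rho cs w (sr i)) := by
  have h' : ¬ cs.IsRightDescent (w * cs.simple i) i :=
    (cs.isRightDescent_iff_not_isRightDescent_mul).1 h
  have := NN_rho_sr cs h'
  rw [map_mul, LinearEquiv.mul_apply, rho_simple, sig_apply, bil_sr_sr, gram_self] at this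
  have e : sr i - ((2 : ℝ) * 1) • sr i = - sr i := by module
  rw [e, map_neg] at this
  exact this

end Pool.Agent.Helper38_Coxeter
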