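import Mathlib

set_option autoImplicit false

/-!
# Definitions: the extended Coxeter group `W⁺ = W ⋊ Aut(W,S)`, its length and Bruhat order
-/

namespace Pool.Agent.Helper38_Coxeter

variable {B W : Type*} [Group W] {M : CoxeterMatrix B}

/-- `Aut(W,S)`: the group of automorphisms of `W` mapping `S = {s_i}` onto itself. -/
def AutWS (cs : CoxeterSystem M W) : Subgroup (MulAut W) where
  carrier := {f | f '' Set.range cs.simple = Set.range cs.simple}
  mul_mem' := by
    intro f g hf hg
    simp only [Set.mem_ofPred_eq] at hf hg ⊢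
    rw [MulAut.coe_mul, Set.image_comp, hg, hf]
  one_mem' := by simp
  inv_mem' := by
    intro f hf
    simp only [Set.mem_ofPred_eq] at hf ⊢
    conv_lhs => rw [← hf]
    rw [← Set.image_comp]
    convert Set.image_id _
    ext x
    simp

/-- `W⁺ = W ⋊ Aut(W,S)`. -/
abbrev WPlus (cs : CoxeterSystem M W) : Type _ := W ⋊[(AutWS cs).subtype] (AutWS cs)

/-- The inclusion of `W` in `W⁺`. -/
def incl (cs : CoxeterSystem M W) : W →* WPlus cs := SemidirectProduct.inl

/-- The length function extended to `W⁺` by `ℓ(wθ) = ℓ(w)`. -/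
noncomputable def lenPlus (cs : CoxeterSystem M W) (x : WPlus cs) : ℕ := cs.length x.left

/-- The Bruhat order on `W`: `u ≤ v` if there is a chain from `u` to `v` in which each step is left
multiplication by a reflection and increases the length. -/
def BruhatLE (cs : CoxeterSystem M W) : W → W → Prop :=
  Relation.ReflTransGen (fun a b => ∃ t, cs.IsReflection t ∧ b = t * a ∧ cs.length a < cs.length b)

/-- The Bruhat order on `W⁺`: `wθ ≤ w'θ'` iff `θ = θ'` and `w ≤ w'`. -/
def BruhatPlusLE (cs : CoxeterSystem M W) (x y : WPlus cs) : Prop :=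
  x.right = y.right ∧ BruhatLE cs x.left y.left

/-- `x < y` means `x ≤ y` and `x ≠ y`. -/
def BruhatPlusLT (cs : CoxeterSystem M W) (x y : WPlus cs) : Prop :=
  BruhatPlusLE cs x y ∧ x ≠ y

/-- The twisted involutions `I⁺ = {x ∈ W⁺ : x² = 1}`. -/
def TwistedInvolutions (cs : CoxeterSystem M W) : Set (WPlus cs) := {x | x * x = 1}

/-- `K` is a `W`-conjugacy class in `I⁺`. -/
def IsWConjClass (cs : CoxeterSystem M W) (K : Set (WPlus cs)) : Prop :=
  ∃ x ∈ TwistedInvolutions cs, K = {y | ∃ w : W, y = incl cs w * x * (incl cs w)⁻¹}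

end Pool.Agent.Helper38_Coxeter
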