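import Pool.Agent.Helper38_Coxeter.Standardize

set_option autoImplicit false

/-!
# Rank two standard parabolic subgroups and their cosets
-/

open Module

namespace Pool.Agent.Helper38_Coxeter

variable {B W : Type*} [Group W] {M : CoxeterMatrix B} {cs : CoxeterSystem M W}

variable (cs) in
/-- The standard parabolic subgroup generated by two simple reflections. -/
def WJ (i j : B) : Subgroup W := Subgroup.closure {cs.simple i, cs.simple j}

/-- The plane spanned by two simple roots. -/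
noncomputable def PJ (i j : B) : Submodule ℝ (B →₀ ℝ) := Submodule.span ℝ {sr i, sr j}

lemma simple_left_mem (i j : B) : cs.simple i ∈ WJ cs i j := Subgroup.subset_closure (by simp)
lemma simple_right_mem (i j : B) : cs.simple j ∈ WJ cs i j := Subgroup.subset_closure (by simp)
lemma simple_mem_WJ {i j b : B} (hb : b = i ∨ b = j) : cs.simple b ∈ WJ cs i j := by
  rcases hb with rfl | rfl
  · exact simple_left_mem _ _
  · exact simple_right_mem _ _

lemma sr_left_mem (i j : B) : (sr i : B →₀ ℝ) ∈ PJ i j := Submodule.subset_span (by simp)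
lemma sr_right_mem (i j : B) : (sr j : B →₀ ℝ) ∈ PJ i j := Submodule.subset_span (by simp)
lemma sr_mem_PJ {i j b : B} (hb : b = i ∨ b = j) : (sr b : B →₀ ℝ) ∈ PJ i j := by
  rcases hb with rfl | rfl
  · exact sr_left_mem _ _
  · exact sr_right_mem _ _

lemma coord_of_mem_PJ {i j b : B} (hb : ¬ (b = i ∨ b = j)) {v : B →₀ ℝ} (hv : v ∈ PJ i j) :
    v b = 0 := by
  obtain ⟨a, c, rfl⟩ := Submodule.mem_span_pair.1 hv
  push Not at hb
  simp [sr, Ne.symm hb.1, Ne.symm hb.2]

lemma exists_nonneg_of_mem_PJ {i j : B} {v : B →₀ ℝ} (hv : v ∈ PJ i j) (hn : NN v) :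
    ∃ a c : ℝ, 0 ≤ a ∧ 0 ≤ c ∧ v = a • sr i + c • sr j := by
  obtain ⟨a, c, rfl⟩ := Submodule.mem_span_pair.1 hv
  by_cases hij : i = j
  · subst hij
    have h1 := hn i
    simp [sr] at h1
    refine ⟨a + c, 0, h1, le_rfl, ?_⟩
    module
  · have h1 := hn i
    have h2 := hn j
    simp [sr, hij, Ne.symm hij] at h1 h2
    exact ⟨a, c, h1, h2, rfl⟩

lemma NN_map_of_mem_PJ {i j : B} {v : B →₀ ℝ} (hv : v ∈ PJ i j) (hn : NN v)
    (L : (B →₀ ℝ) ≃ₗ[ℝ] (B →₀ ℝ)) (hi : NN (L (sr i))) (hj : NN (L (sr j))) : NN (L v) := by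
  obtain ⟨a, c, ha, hc, rfl⟩ := exists_nonneg_of_mem_PJ hv hn
  rw [map_add, map_smul, map_smul]
  exact (hi.smul ha).add (hj.smul hc)

lemma IsRoot.nn_of_coord {γ : B →₀ ℝ} (h : IsRoot cs γ) {b : B} (hb : 0 < γ b) : NN γ := by
  rcases h.nn_or with h1 | h1
  · exact h1
  · have := h1 b
    rw [Finsupp.neg_apply] at this
    linarith

lemma rho_sub_mem_of_mem {i j : B} {u : W} (hu : u ∈ WJ cs i j) (y : B →₀ ℝ) :
    rho cs u y - y ∈ PJ i j := by
  induction hu using Subgroup.closure_induction generalizing y with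
  | mem x hx =>
    rcases hx with rfl | rfl
    · exact mem_plane_rho_sub (refOf_simple i) (sr_left_mem i j) y
    · exact mem_plane_rho_sub (refOf_simple j) (sr_right_mem i j) y
  | one => simp
  | mul a b _ _ iha ihb => exact mem_plane_mul iha ihb y
  | inv a _ ih =>
    have h := ih (rho cs a⁻¹ y)
    rw [← LinearEquiv.mul_apply, ← map_mul, mul_inv_cancel, map_one, LinearEquiv.coe_one,
      id_eq] at h
    have := (PJ i j).neg_mem h
    rwa [neg_sub] at this

lemma rho_mem_of_mem {i j : B} {u : W} (hu : u ∈ WJ cs i j) {y : B →₀ ℝ} (hy : y ∈ PJ i j) :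
    rho cs u y ∈ PJ i j := by
  have := (PJ i j).add_mem (rho_sub_mem_of_mem hu y) hy
  simpa using this

/-- If `z` acts trivially modulo `PJ` and keeps `α_i, α_j` nonnegative then it is trivial. -/
lemma eq_one_of_NN_pair {i j : B} {z : W} (hz : ∀ y, rho cs z y - y ∈ PJ i j)
    (hi : NN (rho cs z (sr i))) (hj : NN (rho cs z (sr j))) : z = 1 := by
  apply eq_one_of_forall_NN
  intro b
  by_cases hb : b = i ∨ b = j
  · rcases hb with rfl | rfl
    · exact hi
    · exact hj
  · have h1 := coord_of_mem_PJ hb (hz (sr b))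
    apply ((isRoot_sr (cs := cs) b).rho z).nn_of_coord (b := b)
    rw [Finsupp.sub_apply] at h1
    simp [sr] at h1 ⊢
    linarith

/-- A nontrivial element of the parabolic has a left descent in it. -/
lemma exists_leftDescent_mem {i j : B} {z : W} (hz : z ∈ WJ cs i j) (h1 : z ≠ 1) :
    ∃ b, (b = i ∨ b = j) ∧ cs.IsLeftDescent z b := by
  by_contra hcon
  push Not at hcon
  have hi : ¬ cs.IsRightDescent z⁻¹ i := by
    rw [cs.isRightDescent_inv_iff]; exact hcon i (Or.inl rfl)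
  have hj : ¬ cs.IsRightDescent z⁻¹ j := by
    rw [cs.isRightDescent_inv_iff]; exact hcon j (Or.inr rfl)
  have := eq_one_of_NN_pair (rho_sub_mem_of_mem ((WJ cs i j).inv_mem hz)) (NN_rho_sr cs hi)
    (NN_rho_sr cs hj)
  exact h1 (inv_eq_one.1 this)

namespace RootAction

variable {G : Type*} [Group G] (A : RootAction cs G)

/-- Coset decomposition with respect to a rank two standard parabolic. -/
lemma exists_coset_decomp (i j : B) (g : G) : ∃ u ∈ WJ cs i j, ∃ y : G, g = A.ι u * y ∧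
    NN (A.T y⁻¹ (sr i)) ∧ NN (A.T y⁻¹ (sr j)) := by
  let f : WJ cs i j → ℕ := fun u => A.len (A.ι (u : W)⁻¹ * g)
  set u := Function.argmin f with hu
  have hmin : ∀ u', f u ≤ f u' := fun u' => Function.argmin_le f u'
  clear_value u
  have aux : ∀ b, (b = i ∨ b = j) → NN (A.T (A.ι (u : W)⁻¹ * g)⁻¹ (sr b)) := by
    intro b hb
    rcases (A.root_T (A.ι (u : W)⁻¹ * g)⁻¹ (isRoot_sr (cs := cs) b)).nn_or with h | h
    · exact h
    · exfalso
      have h1 := A.len_lt _ (refOf_simple b) (NN_sr b) h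
      have h2 := hmin ⟨u * cs.simple b, (WJ cs i j).mul_mem u.2 (simple_mem_WJ hb)⟩
      simp only [f, mul_inv_rev, cs.inv_simple, map_mul, mul_assoc] at h2
      simp only [map_inv] at h1 h2
      omega
  refine ⟨u, u.2, A.ι (u : W)⁻¹ * g, ?_, aux i (Or.inl rfl), aux j (Or.inr rfl)⟩
  rw [← mul_assoc, ← map_mul, mul_inv_cancel, map_one, one_mul]

/-- Lengths in a coset of a rank two standard parabolic. -/
lemma len_mul_of_mem {i j : B} {y : G} (hi : NN (A.T y⁻¹ (sr i))) (hj : NN (A.T y⁻¹ (sr j)))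
    {z : W} (hz : z ∈ WJ cs i j) : A.len (A.ι z * y) = cs.length z + A.len y := by
  induction hn : cs.length z using Nat.strong_induction_on generalizing z with
  | _ n ih =>
  by_cases hz1 : z = 1
  · subst hz1
    rw [cs.length_one] at hn
    rw [map_one, one_mul, ← hn, zero_add]
  obtain ⟨b, hb, hd⟩ := exists_leftDescent_mem hz hz1
  have hlen := (cs.isLeftDescent_iff).1 hd
  have hz' : cs.simple b * z ∈ WJ cs i j := (WJ cs i j).mul_mem (simple_mem_WJ hb) hz
  have h1 := ih _ (by omega) hz' rfl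
  have hnd : ¬ cs.IsLeftDescent (cs.simple b * z) b :=
    (cs.isLeftDescent_iff_not_isLeftDescent_mul).1 hd
  have hnn : NN (rho cs (cs.simple b * z)⁻¹ (sr b)) := by
    apply NN_rho_sr
    rw [cs.isRightDescent_inv_iff]
    exact hnd
  have hmem : rho cs (cs.simple b * z)⁻¹ (sr b) ∈ PJ i j :=
    rho_mem_of_mem ((WJ cs i j).inv_mem hz') (sr_mem_PJ hb)
  have h2 : NN (A.T (A.ι (cs.simple b * z) * y)⁻¹ (sr b)) := by
    rw [mul_inv_rev, ← map_inv, map_mul, LinearEquiv.mul_apply, A.T_ι]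
    exact NN_map_of_mem_PJ hmem hnn _ hi hj
  have h3 := A.len_gt _ (refOf_simple b) (NN_sr b) h2
  have h4 := A.len_simple b (A.ι (cs.simple b * z) * y)
  have h5 : A.ι (cs.simple b) * (A.ι (cs.simple b * z) * y) = A.ι z * y := by
    rw [← mul_assoc, ← map_mul, cs.simple_mul_simple_cancel_left]
  rw [h5] at h3 h4
  omega

end RootAction

variable (cs) in
/-- The tautological action of `W` on its own root system. -/
noncomputable def selfAction : RootAction cs W where
  ι := MonoidHom.id W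
  T := rho cs
  len := cs.length
  T_ι _ := rfl
  bil_T g u v := bil_rho cs g u v
  conj g t γ h := ⟨g * t * g⁻¹, h.conj g, rfl⟩
  len_simple i g := cs.length_simple_mul g i
  len_lt g h h1 h2 := length_lt_of_NN_neg h h1 h2
  len_gt g h h1 h2 := length_gt_of_NN h h1 h2
  fin g := finite_inversions g

/-- An element acting trivially modulo the standard plane lies in the standard parabolic. -/
lemma mem_WJ_of_sub_mem {i j : B} {w : W} (hw : ∀ y, rho cs w y - y ∈ PJ i j) :
    w ∈ WJ cs i j := by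
  obtain ⟨u, hu, y, hwy, hi, hj⟩ := (selfAction cs).exists_coset_decomp i j w
  have hwy' : w = u * y := hwy
  have hy : y = u⁻¹ * w := by rw [hwy']; group
  have hy' : ∀ v, rho cs y v - v ∈ PJ i j := by
    rw [hy]
    exact mem_plane_mul (rho_sub_mem_of_mem ((WJ cs i j).inv_mem hu)) hw
  have hyi : ∀ v, rho cs y⁻¹ v - v ∈ PJ i j := by
    intro v
    have h := hy' (rho cs y⁻¹ v)
    rw [← LinearEquiv.mul_apply, ← map_mul, mul_inv_cancel, map_one, LinearEquiv.coe_one,
      id_eq] at h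
    have := (PJ i j).neg_mem h
    rwa [neg_sub] at this
  have : y⁻¹ = 1 := eq_one_of_NN_pair hyi hi hj
  rw [inv_eq_one] at this
  rw [hwy', this, mul_one]
  exact hu

/-- Reflections whose root lies in the standard plane lie in the standard parabolic. -/
lemma mem_WJ_of_refOf {i j : B} {t : W} {γ : B →₀ ℝ} (h : RefOf cs t γ) (hγ : γ ∈ PJ i j) :
    t ∈ WJ cs i j :=
  mem_WJ_of_sub_mem (mem_plane_rho_sub h hγ)

/-- The root of a reflection in the standard parabolic lies in the standard plane. -/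
lemma root_mem_of_mem_WJ {i j : B} {t : W} {γ : B →₀ ℝ} (h : RefOf cs t γ)
    (ht : t ∈ WJ cs i j) : γ ∈ PJ i j := by
  have h1 := rho_sub_mem_of_mem ht γ
  rw [h.rho_self] at h1
  have h2 : -γ - γ = (-2 : ℝ) • γ := by module
  rw [h2] at h1
  exact ((PJ i j).smul_mem_iff (by norm_num)).1 h1

/-- Elements of the dihedral group. -/
lemma WJ_form {i j : B} {z : W} (hz : z ∈ WJ cs i j) : ∃ k : ℤ,
    z = (cs.simple i * cs.simple j) ^ k ∨ z = (cs.simple i * cs.simple j) ^ k * cs.simple i := by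
  set g := cs.simple i * cs.simple j with hg
  have hsg : ∀ k : ℤ, cs.simple i * g ^ k = g ^ (-k) * cs.simple i := by
    intro k
    have h1 : cs.simple i * g * (cs.simple i)⁻¹ = g⁻¹ := by
      rw [hg, cs.inv_simple, mul_inv_rev, cs.inv_simple, cs.inv_simple, ← mul_assoc,
        cs.simple_mul_simple_self, one_mul]
    have h2 : cs.simple i * g ^ k * (cs.simple i)⁻¹ = g ^ (-k) := by
      rw [← conj_zpow, h1, inv_zpow, zpow_neg]
    rw [← h2]; group
  induction hz using Subgroup.closure_induction with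
  | mem x hx =>
    rcases hx with rfl | rfl
    · exact ⟨0, Or.inr (by simp)⟩
    · refine ⟨-1, Or.inr ?_⟩
      rw [zpow_neg_one, hg, mul_inv_rev, cs.inv_simple, cs.inv_simple, mul_assoc,
        cs.simple_mul_simple_self, mul_one]
  | one => exact ⟨0, Or.inl (by simp)⟩
  | mul a b _ _ iha ihb =>
    obtain ⟨k, hk | hk⟩ := iha <;> obtain ⟨l, hl | hl⟩ := ihb
    · exact ⟨k + l, Or.inl (by rw [hk, hl, zpow_add])⟩
    · exact ⟨k + l, Or.inr (by rw [hk, hl, zpow_add, mul_assoc])⟩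
    · refine ⟨k + -l, Or.inr ?_⟩
      rw [hk, hl, mul_assoc, hsg, ← mul_assoc, zpow_add]
    · refine ⟨k + -l, Or.inl ?_⟩
      rw [hk, hl, mul_assoc, ← mul_assoc (cs.simple i), hsg, mul_assoc,
        cs.simple_mul_simple_self, mul_one, zpow_add]
  | inv a _ ih =>
    obtain ⟨k, hk | hk⟩ := ih
    · exact ⟨-k, Or.inl (by rw [hk, zpow_neg])⟩
    · refine ⟨k, Or.inr ?_⟩
      rw [hk, mul_inv_rev, cs.inv_simple, ← zpow_neg, hsg, neg_neg]

/-- Elements of odd length of a rank two standard parabolic are reflections. -/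
lemma isReflection_of_odd {i j : B} {z : W} (hz : z ∈ WJ cs i j) (hodd : Odd (cs.length z)) :
    cs.IsReflection z := by
  obtain ⟨k, hk | hk⟩ := WJ_form hz
  · exfalso
    have h1 : cs.lengthParity z = 1 := by
      have h2 : cs.lengthParity (cs.simple i * cs.simple j) = 1 := by
        rw [map_mul, cs.lengthParity_simple, cs.lengthParity_simple]
        rfl
      rw [hk, map_zpow, h2, one_zpow]
    rw [cs.lengthParity_eq_ofAdd_length] at h1
    have h3 : ((cs.length z : ℕ) : ZMod 2) = 0 := by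
      simpa using h1
    rw [ZMod.natCast_eq_zero_iff_even] at h3
    exact (Nat.not_even_iff_odd.2 hodd) h3
  · set g := cs.simple i * cs.simple j with hg
    have hsg : ∀ k : ℤ, cs.simple i * g ^ k = g ^ (-k) * cs.simple i := by
      intro k
      have h1 : cs.simple i * g * (cs.simple i)⁻¹ = g⁻¹ := by
        rw [hg, cs.inv_simple, mul_inv_rev, cs.inv_simple, cs.inv_simple, ← mul_assoc,
          cs.simple_mul_simple_self, one_mul]
      have h2 : cs.simple i * g ^ k * (cs.simple i)⁻¹ = g ^ (-k) := by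
        rw [← conj_zpow, h1, inv_zpow, zpow_neg]
      rw [← h2]; group
    rcases Int.even_or_odd' k with ⟨l, hl | hl⟩
    · refine ⟨g ^ l, i, ?_⟩
      have h1 := hsg (-l)
      rw [neg_neg] at h1
      rw [hk, hl, ← zpow_neg, mul_assoc, h1, ← mul_assoc, ← zpow_add, two_mul]
    · refine ⟨g ^ l * cs.simple i, j, ?_⟩
      have h1 := hsg (-l)
      rw [neg_neg] at h1
      rw [hk, hl, mul_inv_rev, cs.inv_simple, ← zpow_neg, h1]
      have h2 : (2 * l + 1 : ℤ) = l + 1 + l := by ring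
      rw [h2, zpow_add, zpow_add, zpow_one]
      simp only [hg, mul_assoc]

namespace RootAction

variable {G : Type*} [Group G] (A : RootAction cs G)

/-- Transport of a reflection step from the parabolic to the coset `v⁻¹ W_J y v`. -/
lemma step_transport {i j : B} {y : G} (hyP : ∀ u ∈ PJ i j, A.T y⁻¹ u ∈ PJ i j)
    (hi : NN (A.T y⁻¹ (sr i))) (hj : NN (A.T y⁻¹ (sr j)))
    {v : W} (hvi : NN (rho cs v⁻¹ (sr i))) (hvj : NN (rho cs v⁻¹ (sr j)))
    {z τ : W} (hz : z ∈ WJ cs i j) (hτ : τ ∈ WJ cs i j) (hr : cs.IsReflection τ)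
    (hlt : cs.length z < cs.length (τ * z)) :
    A.Step (A.ι v⁻¹ * (A.ι z * y) * A.ι v) (A.ι v⁻¹ * (A.ι (τ * z) * y) * A.ι v) := by
  obtain ⟨ε, hε, hεn⟩ := exists_refOf hr
  have hεP : ε ∈ PJ i j := root_mem_of_mem_WJ hε hτ
  have h1 : NN (rho cs z⁻¹ ε) := by
    rcases (hε.isRoot.rho z⁻¹).nn_or with h | h
    · exact h
    · have := length_lt_of_NN_neg hε hεn h
      omega
  have h2 : rho cs z⁻¹ ε ∈ PJ i j := rho_mem_of_mem ((WJ cs i j).inv_mem hz) hεP
  have h3 : NN (A.T y⁻¹ (rho cs z⁻¹ ε)) := NN_map_of_mem_PJ h2 h1 _ hi hj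
  have h4 : A.T y⁻¹ (rho cs z⁻¹ ε) ∈ PJ i j := hyP _ h2
  have h5 : NN (rho cs v⁻¹ (A.T y⁻¹ (rho cs z⁻¹ ε))) := NN_map_of_mem_PJ h4 h3 _ hvi hvj
  have h6 : RefOf cs (v⁻¹ * τ * v) (rho cs v⁻¹ ε) := by
    have := hε.conj v⁻¹
    rwa [inv_inv] at this
  have h7 : NN (rho cs v⁻¹ ε) := NN_map_of_mem_PJ hεP hεn _ hvi hvj
  have h8 : A.T (A.ι v⁻¹ * (A.ι z * y) * A.ι v)⁻¹ (rho cs v⁻¹ ε) =
      rho cs v⁻¹ (A.T y⁻¹ (rho cs z⁻¹ ε)) := by
    have : (A.ι v⁻¹ * (A.ι z * y) * A.ι v)⁻¹ = A.ι v⁻¹ * (y⁻¹ * (A.ι z⁻¹ * A.ι v)) := by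
      simp only [map_inv]; group
    rw [this]
    simp only [map_mul, LinearEquiv.mul_apply, A.T_ι]
    congr 3
    rw [← LinearEquiv.mul_apply, ← map_mul, mul_inv_cancel, map_one, LinearEquiv.coe_one, id_eq]
  have h9 := A.step_of_NN (A.ι v⁻¹ * (A.ι z * y) * A.ι v) h6 h7 (by rw [h8]; exact h5)
  convert! h9 using 1
  simp only [map_mul, map_inv]
  group

/-- Two elements of the coset with different `W_J`-lengths of the same parity are comparable. -/
lemma two_steps {i j : B} {y : G} (hyP : ∀ u ∈ PJ i j, A.T y⁻¹ u ∈ PJ i j)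
    (hi : NN (A.T y⁻¹ (sr i))) (hj : NN (A.T y⁻¹ (sr j)))
    {v : W} (hvi : NN (rho cs v⁻¹ (sr i))) (hvj : NN (rho cs v⁻¹ (sr j)))
    {z z' : W} (hz : z ∈ WJ cs i j) (hz' : z' ∈ WJ cs i j)
    (hpar : cs.length z' % 2 = cs.length z % 2) (hlt : cs.length z' < cs.length z) :
    ∃ m, A.Step (A.ι v⁻¹ * (A.ι z' * y) * A.ι v) m ∧
      A.Step m (A.ι v⁻¹ * (A.ι z * y) * A.ι v) := by
  have hz1 : z ≠ 1 := by
    rintro rfl
    rw [cs.length_one] at hlt
    omega
  obtain ⟨b, hb, hd⟩ := exists_leftDescent_mem hz hz1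
  have hlen := (cs.isLeftDescent_iff).1 hd
  set z1 := cs.simple b * z with hz1'
  have hbm := simple_mem_WJ (cs := cs) hb
  have hz1m : z1 ∈ WJ cs i j := (WJ cs i j).mul_mem hbm hz
  set τ := z1 * z'⁻¹ with hτ
  have hτm : τ ∈ WJ cs i j := (WJ cs i j).mul_mem hz1m ((WJ cs i j).inv_mem hz')
  have hodd : Odd (cs.length τ) := by
    rw [Nat.odd_iff, hτ, cs.length_mul_mod_two, cs.length_inv]
    omega
  have hτr := isReflection_of_odd hτm hodd
  have e1 : τ * z' = z1 := by rw [hτ]; group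
  have e2 : cs.simple b * z1 = z := by rw [hz1', cs.simple_mul_simple_cancel_left]
  refine ⟨A.ι v⁻¹ * (A.ι z1 * y) * A.ι v, ?_, ?_⟩
  · have := A.step_transport hyP hi hj hvi hvj hz' hτm hτr (by rw [e1]; omega)
    rwa [e1] at this
  · have := A.step_transport hyP hi hj hvi hvj hz1m hbm (cs.isReflection_simple b)
      (by rw [e2]; omega)
    rwa [e2] at this

end RootAction

end Pool.Agent.Helper38_Coxeter
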