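import Pool.Agent.Helper38_Coxeter.RootAction

set_option autoImplicit false

/-!
# Two reflections whose roots have inner product of absolute value `< 1` generate a finite group
-/

open Module

namespace Pool.Agent.Helper38_Coxeter

variable {B W : Type*} [Group W] {M : CoxeterMatrix B} {cs : CoxeterSystem M W}

lemma rho_mul_left {t t' : W} {γ δ : B →₀ ℝ} (h : RefOf cs t γ) (h' : RefOf cs t' δ) :
    rho cs (t * t') γ = (4 * (bil M γ δ) ^ 2 - 1) • γ - (2 * bil M γ δ) • δ := by
  rw [map_mul, LinearEquiv.mul_apply, h'.rho_apply, h.rho_apply]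
  simp only [map_sub, map_smul, h.isRoot.bil_self, smul_eq_mul, bil_symm M δ γ]
  module

lemma rho_mul_right {t t' : W} {γ δ : B →₀ ℝ} (h : RefOf cs t γ) (h' : RefOf cs t' δ) :
    rho cs (t * t') δ = (2 * bil M γ δ) • γ - δ := by
  rw [map_mul, LinearEquiv.mul_apply, h'.rho_self, h.rho_apply]
  simp only [map_neg]
  module

lemma rho_mul_rec {t t' : W} {γ δ : B →₀ ℝ} (h : RefOf cs t γ) (h' : RefOf cs t' δ) (k : ℕ) :
    rho cs ((t * t') ^ (k + 2)) γ = (4 * (bil M γ δ) ^ 2 - 2) • rho cs ((t * t') ^ (k + 1)) γ -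
      rho cs ((t * t') ^ k) γ := by
  have e : rho cs ((t * t') ^ 2) γ = (4 * (bil M γ δ) ^ 2 - 2) • rho cs (t * t') γ - γ := by
    rw [pow_two, map_mul, LinearEquiv.mul_apply, rho_mul_left h h']
    rw [map_sub, map_smul, map_smul, rho_mul_left h h', rho_mul_right h h']
    module
  rw [pow_add, map_mul, LinearEquiv.mul_apply, e, map_sub, map_smul, ← LinearEquiv.mul_apply,
    ← map_mul, ← pow_succ]

lemma refl_mul_inv {t t' : W} (ht : cs.IsReflection t) (ht' : cs.IsReflection t') :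
    t * (t * t') * t = (t * t')⁻¹ := by
  rw [mul_inv_rev, ht.inv, ht'.inv, ← mul_assoc, ht.mul_self, one_mul]

lemma rho_pow_ne {t t' : W} {γ δ : B →₀ ℝ} (h : RefOf cs t γ) (h' : RefOf cs t' δ)
    (hcon : ∀ n, 0 < n → (t * t') ^ n ≠ 1) {m : ℕ} (hm : 0 < m) :
    rho cs ((t * t') ^ m) γ ≠ γ := by
  intro e
  have h1 := h.conj ((t * t') ^ m)
  rw [e] at h1
  have h2 := h1.unique h
  have h3 : (t * t') ^ m * t = t * (t * t') ^ m := mul_inv_eq_iff_eq_mul.1 h2
  have h4 : t * (t * t') ^ m * t = ((t * t') ^ m)⁻¹ := by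
    have hinv : t⁻¹ = t := h.isReflection.inv
    calc t * (t * t') ^ m * t = t * (t * t') ^ m * t⁻¹ := by rw [hinv]
      _ = (t * (t * t') * t⁻¹) ^ m := by rw [conj_pow]
      _ = ((t * t')⁻¹) ^ m := by rw [hinv, refl_mul_inv h.isReflection h'.isReflection]
      _ = ((t * t') ^ m)⁻¹ := inv_pow _ _
  have h5 : (t * t') ^ m = ((t * t') ^ m)⁻¹ := by
    rw [← h4, ← h3, mul_assoc, h.isReflection.mul_self, mul_one]
  have h6 : (t * t') ^ (m + m) = 1 := by
    rw [pow_add]
    nth_rw 1 [h5]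
    group
  exact hcon (m + m) (by omega) h6

lemma exists_pow_eq_one {t t' : W} {γ δ : B →₀ ℝ} (h : RefOf cs t γ) (h' : RefOf cs t' δ)
    (hc : (bil M γ δ) ^ 2 < 1) : ∃ n, 0 < n ∧ (t * t') ^ n = 1 := by
  by_contra hcon'
  have hcon : ∀ n, 0 < n → (t * t') ^ n ≠ 1 := fun n hn e => hcon' ⟨n, hn, e⟩
  set g := t * t' with hg
  set ε : ℕ → (B →₀ ℝ) := fun k => rho cs (g ^ k) γ with hε
  have hroot : ∀ k, IsRoot cs (ε k) := fun k => h.isRoot.rho _
  have hinj : Function.Injective ε := by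
    have aux : ∀ k l, k < l → ε k ≠ ε l := by
      intro k l hkl e
      obtain ⟨m, rfl⟩ : ∃ m, l = k + m := ⟨l - k, by omega⟩
      simp only [hε] at e
      rw [pow_add, map_mul, LinearEquiv.mul_apply] at e
      have := (rho cs (g ^ k)).injective e
      exact rho_pow_ne h h' hcon (m := m) (by omega) this.symm
    intro k l e
    rcases lt_trichotomy k l with hlt | heq | hgt
    · exact absurd e (aux k l hlt)
    · exact heq
    · exact absurd e.symm (aux l k hgt)
  have hfin : {k | NN (ε k) ∧ NN (-(ε (k + 1)))}.Finite := by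
    refine Set.Finite.subset ((finite_inversions (cs := cs) g).preimage hinj.injOn) ?_
    rintro k ⟨h1, h2⟩
    refine ⟨hroot k, h1, ?_⟩
    have e : rho cs g (ε k) = ε (k + 1) := by
      simp only [hε]
      rw [← LinearEquiv.mul_apply, ← map_mul, ← pow_succ']
    rw [e]
    exact h2
  obtain ⟨K, hK⟩ := hfin.bddAbove
  have hK' : ∀ k, K < k → NN (ε k) → NN (ε (k + 1)) := by
    intro k hk h1
    rcases (hroot (k + 1)).nn_or with h2 | h2
    · exact h2
    · have : k ≤ K := hK ⟨h1, h2⟩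
      omega
  have hl : 4 * (bil M γ δ) ^ 2 - 2 < 2 := by linarith
  by_cases hex : ∃ k0, K < k0 ∧ NN (ε k0)
  · obtain ⟨k0, hk0, hnn⟩ := hex
    have hall : ∀ k, NN (ε (k0 + k)) := by
      intro k
      induction k with
      | zero => exact hnn
      | succ k ih => exact hK' (k0 + k) (by omega) ih
    refine no_positive_recurrence (h := fun k => ht (ε (k0 + k))) hl
      (fun k => ht_pos (hall k) (hroot _).ne_zero) (fun k => ?_)
    have := rho_mul_rec h h' (k0 + k)
    have e : ε (k0 + (k + 2)) = (4 * (bil M γ δ) ^ 2 - 2) • ε (k0 + (k + 1)) - ε (k0 + k) := this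
    rw [e, map_sub, map_smul, smul_eq_mul]
  · push Not at hex
    have hall : ∀ k, NN (-(ε (K + 1 + k))) := by
      intro k
      rcases (hroot (K + 1 + k)).nn_or with h2 | h2
      · exact absurd h2 (hex _ (by omega))
      · exact h2
    refine no_positive_recurrence (h := fun k => ht (-(ε (K + 1 + k)))) hl
      (fun k => ht_pos (hall k) (hroot _).neg.ne_zero) (fun k => ?_)
    have := rho_mul_rec h h' (K + 1 + k)
    have e : ε (K + 1 + (k + 2)) = (4 * (bil M γ δ) ^ 2 - 2) • ε (K + 1 + (k + 1)) -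
      ε (K + 1 + k) := this
    simp only [map_neg]
    rw [e, map_sub, map_smul, smul_eq_mul]
    ring

end Pool.Agent.Helper38_Coxeter
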