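import Mathlib

set_option autoImplicit false

/-!
# The geometric representation of a Coxeter group

For a Coxeter matrix `M` indexed by `B` we build the Tits (geometric) representation of the Coxeter
group on `V = B →₀ ℝ`.
-/

open Module Polynomial.Chebyshev

namespace Pool.Agent.Helper38_Coxeter

variable {B : Type*} (M : CoxeterMatrix B)

/-- The Gram matrix `-cos (π / m)`; with the convention `m = 0` for infinite order this is `-1`. -/
noncomputable def gram (i j : B) : ℝ := - Real.cos (Real.pi / M i j)

lemma gram_self (i : B) : gram M i i = 1 := by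
  simp [gram]

lemma gram_symm (i j : B) : gram M i j = gram M j i := by
  simp [gram, M.symmetric i j]

/-- The Tits bilinear form. -/
noncomputable def bil : (B →₀ ℝ) →ₗ[ℝ] (B →₀ ℝ) →ₗ[ℝ] ℝ :=
  Finsupp.linearCombination ℝ (fun i => Finsupp.linearCombination ℝ (gram M i))

/-- The simple roots. -/
noncomputable def sr (i : B) : B →₀ ℝ := Finsupp.single i 1

lemma bil_sr_sr (i j : B) : bil M (sr i) (sr j) = gram M i j := by
  simp [bil, sr]

lemma bil_symm (u v : B →₀ ℝ) : bil M u v = bil M v u := by
  have h : bil M = (bil M).flip := by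
    ext i j
    simp only [LinearMap.coe_comp, Function.comp_apply, Finsupp.lsingle_apply,
      LinearMap.flip_apply]
    exact (bil_sr_sr M i j).trans ((gram_symm M i j).trans (bil_sr_sr M j i).symm)
  conv_lhs => rw [h]
  rfl

/-- The coroot functional `2 B(α_i, ·)`. -/
noncomputable def cr (i : B) : Dual ℝ (B →₀ ℝ) := (2 : ℝ) • bil M (sr i)

lemma cr_apply (i : B) (v : B →₀ ℝ) : cr M i v = 2 * bil M (sr i) v := rfl

lemma cr_self (i : B) : cr M i (sr i) = 2 := by
  rw [cr_apply, bil_sr_sr, gram_self]; norm_num

/-- The simple reflections of the geometric representation. -/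
noncomputable def sig (i : B) : (B →₀ ℝ) ≃ₗ[ℝ] (B →₀ ℝ) := reflection (cr_self M i)

lemma sig_apply (i : B) (v : B →₀ ℝ) : sig M i v = v - (2 * bil M (sr i) v) • sr i := by
  rw [sig, reflection_apply, cr_apply]

lemma sig_mul_sig_self (i : B) : sig M i * sig M i = 1 := by
  have := reflection_inv (cr_self M i)
  have h2 : (sig M i)⁻¹ = sig M i := this
  rw [← mul_inv_cancel (sig M i), h2]

lemma sin_pi_div_pos {m : ℕ} (hm : 2 ≤ m) : 0 < Real.sin (Real.pi / m) := by
  have h2 : (2 : ℝ) ≤ m := by exact_mod_cast hm
  apply Real.sin_pos_of_pos_of_lt_pi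
  · have := Real.pi_pos; positivity
  · rw [div_lt_iff₀ (by linarith)]
    nlinarith [Real.pi_pos]

lemma sig_mul_sig_pow (i j : B) : (sig M i * sig M j) ^ M i j = 1 := by
  by_cases hij : i = j
  · subst hij
    rw [M.diagonal, pow_one, sig_mul_sig_self]
  rcases Nat.eq_zero_or_pos (M i j) with h0 | hpos
  · rw [h0, pow_zero]
  have hne1 : M i j ≠ 1 := M.off_diagonal i j hij
  have h2 : 2 ≤ M i j := by omega
  -- order two
  rcases Nat.eq_or_lt_of_le h2 with h2 | h3
  · have hg : gram M i j = 0 := by
      rw [gram, ← h2]
      norm_num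
    have hg' : gram M j i = 0 := by rw [gram_symm]; exact hg
    rw [← h2]
    ext1 v
    rw [pow_two]
    simp only [LinearEquiv.mul_apply, sig_apply, map_sub, map_smul, bil_sr_sr, gram_self, hg, hg',
      LinearEquiv.coe_one, id_eq]
    module
  · set m := M i j with hm
    set θ : ℝ := 2 * (Real.pi / m) with hθ
    have hm3 : (3 : ℝ) ≤ m := by exact_mod_cast h3
    have hpi := Real.pi_pos
    have hsin : Real.sin θ ≠ 0 := by
      apply ne_of_gt
      apply Real.sin_pos_of_pos_of_lt_pi
      · positivity
      · rw [hθ, ← mul_div_assoc, div_lt_iff₀ (by linarith)]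
        nlinarith
    have ht : (cr M i) (sr j) * (cr M j) (sr i) - 2 = 2 * Real.cos θ := by
      rw [cr_apply, cr_apply, bil_sr_sr, bil_sr_sr, gram_symm M j i, gram, ← hm, hθ,
        Real.cos_two_mul]
      ring
    have hS : ∀ n : ℤ, (S ℝ n).eval (2 * Real.cos θ) * Real.sin θ = Real.sin ((n + 1) * θ) :=
      fun n => S_two_mul_real_cos θ n
    apply LinearEquiv.toLinearMap_injective
    have key := reflection_mul_reflection_pow (cr_self M i) (cr_self M j) m (2 * Real.cos θ)
      ht.symm
    have hpow : ((sig M i * sig M j) ^ m).toLinearMap = LinearMap.id := by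
      rw [sig, sig, key]
      have hmθ : (m : ℝ) * θ = 2 * Real.pi := by
        rw [hθ]; field_simp
      rcases Nat.even_or_odd' m with ⟨k, hk | hk⟩
      · -- m = 2 k
        have e1 : ((m : ℤ) - 2) / 2 = k - 1 := by omega
        have e2 : ((m : ℤ) - 1) / 2 = k - 1 := by omega
        have z : (S ℝ ((k : ℤ) - 1)).eval (2 * Real.cos θ) = 0 := by
          have := hS ((k : ℤ) - 1)
          have h' : (((k : ℤ) - 1 : ℤ) : ℝ) + 1 = k := by push_cast; ring
          rw [h'] at this
          have h'' : (k : ℝ) * θ = Real.pi := by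
            have : (m : ℝ) = 2 * k := by exact_mod_cast hk
            rw [this] at hmθ
            linarith
          rw [h'', Real.sin_pi] at this
          exact (mul_eq_zero.1 this).resolve_right hsin
        rw [e1, e2, z]
        simp
      · have e1 : ((m : ℤ) - 2) / 2 = k - 1 := by omega
        have e2 : ((m : ℤ) - 1) / 2 = k := by omega
        have e3 : ((m : ℤ) - 3) / 2 = k - 1 := by omega
        have e4 : (m : ℤ) / 2 = k := by omega
        have z : (S ℝ (k : ℤ)).eval (2 * Real.cos θ) +
            (S ℝ ((k : ℤ) - 1)).eval (2 * Real.cos θ) = 0 := by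
          have h1 := hS (k : ℤ)
          have h2 := hS ((k : ℤ) - 1)
          have h' : (((k : ℤ) - 1 : ℤ) : ℝ) + 1 = k := by push_cast; ring
          rw [h'] at h2
          have hsum : Real.sin ((((k : ℤ) : ℝ) + 1) * θ) + Real.sin (k * θ) = 0 := by
            have : (((k : ℤ) : ℝ) + 1) * θ = 2 * Real.pi - k * θ := by
              have : (m : ℝ) = 2 * k + 1 := by exact_mod_cast hk
              rw [this] at hmθ
              push_cast
              linarith
            rw [this, Real.sin_sub, Real.sin_two_pi, Real.cos_two_pi]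
            ring
          rw [← h1, ← h2, ← add_mul] at hsum
          exact (mul_eq_zero.1 hsum).resolve_right hsin
        rw [e1, e2, e3, e4, z]
        simp
    rw [hpow]
    rfl

/-- The simple reflections satisfy the Coxeter relations. -/
lemma sig_isLiftable : M.IsLiftable (sig M) := fun i j => sig_mul_sig_pow M i j

end Pool.Agent.Helper38_Coxeter
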