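import Pool.Agent.Helper38_Coxeter.Dihedral

set_option autoImplicit false

/-!
# The case of an infinite dihedral group
-/

set_option linter.unusedSectionVars false

open Module Polynomial.Chebyshev

namespace Pool.Agent.Helper38_Coxeter

/-- `U_k(c)` for integer `k`. -/
noncomputable def sc (c : ℝ) (k : ℤ) : ℝ := (S ℝ k).eval (2 * c)

lemma sc_zero (c : ℝ) : sc c 0 = 1 := by simp [sc]
lemma sc_neg_one (c : ℝ) : sc c (-1) = 0 := by simp [sc]
lemma sc_one (c : ℝ) : sc c 1 = 2 * c := by simp [sc]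
lemma sc_add_two (c : ℝ) (k : ℤ) : sc c (k + 2) = 2 * c * sc c (k + 1) - sc c k := by
  simp [sc, S_add_two]
lemma sc_add_one (c : ℝ) (k : ℤ) : sc c (k + 1) = 2 * c * sc c k - sc c (k - 1) := by
  have := sc_add_two c (k - 1)
  rw [show k - 1 + 2 = k + 1 by ring, show k - 1 + 1 = k by ring] at this
  exact this
lemma sc_neg (c : ℝ) (k : ℤ) : sc c (-k) = - sc c (k - 2) := by
  simp [sc, S_neg]

lemma sc_incr {c : ℝ} (hc : 1 ≤ c) (k : ℕ) : 0 ≤ sc c (k - 1) ∧ 1 ≤ sc c k - sc c (k - 1) := by
  induction k with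
  | zero => simp [sc_zero, sc_neg_one]
  | succ k ih =>
    obtain ⟨h1, h2⟩ := ih
    have h3 := sc_add_one c k
    push_cast
    rw [show (k : ℤ) + 1 - 1 = k by ring, h3]
    have h4 : 0 ≤ sc c k := by linarith
    refine ⟨h4, ?_⟩
    nlinarith

lemma sc_nonneg {c : ℝ} (hc : 1 ≤ c) (k : ℕ) : 0 ≤ sc c k := by
  have := sc_incr hc k
  linarith [this.1, this.2]

lemma sc_strictMono {c : ℝ} (hc : 1 ≤ c) : StrictMono (fun k : ℕ => sc c k) := by
  apply strictMono_nat_of_lt_succ
  intro k
  have := (sc_incr hc (k + 1)).2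
  push_cast at this ⊢
  rw [show (k : ℤ) + 1 - 1 = k by ring] at this
  linarith

variable {B W : Type*} [Group W] {M : CoxeterMatrix B} {cs : CoxeterSystem M W}

/-- The two-sided sequence of roots of an infinite dihedral group. -/
noncomputable def psi (c : ℝ) (γ η : B →₀ ℝ) (k : ℤ) : B →₀ ℝ := sc c k • γ - sc c (k - 1) • η

lemma psi_zero (c : ℝ) (γ η : B →₀ ℝ) : psi c γ η 0 = γ := by
  simp [psi, sc_zero, sc_neg_one]

lemma psi_one (c : ℝ) (γ η : B →₀ ℝ) : psi c γ η 1 = (2 * c) • γ - η := by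
  simp [psi, sc_zero, sc_one]

lemma psi_neg_one (c : ℝ) (γ η : B →₀ ℝ) : psi c γ η (-1) = η := by
  have h := sc_neg c 2
  rw [show (2 : ℤ) - 2 = 0 by ring, sc_zero] at h
  simp [psi, sc_neg_one, show (-1 : ℤ) - 1 = -2 by ring, h]

lemma psi_add_one (c : ℝ) (γ η : B →₀ ℝ) (k : ℤ) :
    psi c γ η (k + 1) = (2 * c) • psi c γ η k - psi c γ η (k - 1) := by
  simp only [psi]
  rw [show k + 1 - 1 = k by ring, sc_add_one c k]
  have := sc_add_one c (k - 1)
  rw [show k - 1 + 1 = k by ring] at this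
  have h2 : sc c (k - 1 - 1) = 2 * c * sc c (k - 1) - sc c k := by linarith
  rw [h2]
  module

section

variable {t t' : W} {γ η : B →₀ ℝ} (h : RefOf cs t γ) (h' : RefOf cs t' η)
include h h'

lemma rho_t_psi (k : ℤ) : rho cs t (psi (bil M γ η) γ η k) = - psi (bil M γ η) γ η (-k) := by
  set c := bil M γ η with hc
  rw [h.rho_apply]
  simp only [psi, map_sub, map_smul, h.isRoot.bil_self, smul_eq_mul, ← hc]
  have e1 : sc c (-k) = - sc c (k - 2) := sc_neg c k
  have e2 : sc c (-k - 1) = - sc c (k - 1) := by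
    have := sc_neg c (k + 1)
    rw [show -(k + 1) = -k - 1 by ring, show k + 1 - 2 = k - 1 by ring] at this
    exact this
  have e3 : sc c k = 2 * c * sc c (k - 1) - sc c (k - 2) := by
    have := sc_add_one c (k - 1)
    rw [show k - 1 + 1 = k by ring, show k - 1 - 1 = k - 2 by ring] at this
    exact this
  rw [e1, e2, e3]
  module

lemma rho_t'_psi (k : ℤ) :
    rho cs t' (psi (bil M γ η) γ η k) = sc (bil M γ η) k • γ - sc (bil M γ η) (k + 1) • η := by
  set c := bil M γ η with hc
  rw [h'.rho_apply]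
  simp only [psi, map_sub, map_smul, h'.isRoot.bil_self, smul_eq_mul, bil_symm M η γ, ← hc]
  rw [sc_add_one c k]
  module

lemma rho_g_psi (k : ℤ) :
    rho cs (t * t') (psi (bil M γ η) γ η k) = psi (bil M γ η) γ η (k + 2) := by
  rw [map_mul, LinearEquiv.mul_apply, rho_t'_psi h h']
  set c := bil M γ η with hc
  rw [h.rho_apply]
  simp only [psi, map_sub, map_smul, h.isRoot.bil_self, smul_eq_mul, ← hc]
  rw [sc_add_two c k, show k + 2 - 1 = k + 1 by ring, sc_add_one c k]
  module

lemma refOf_psi (n : ℕ) : RefOf cs ((t * t') ^ n * t) (psi (bil M γ η) γ η n) := by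
  induction n using Nat.strong_induction_on with
  | _ n ih =>
  match n with
  | 0 => simpa [psi_zero] using h
  | 1 =>
    have h1 := (h'.conj t).neg
    have h2 : -(rho cs t η) = psi (bil M γ η) γ η (1 : ℕ) := by
      have h3 := rho_t_psi h h' (-1)
      rw [psi_neg_one] at h3
      rw [h3]
      simp
    rw [h2] at h1
    have h3 : t * t' * t⁻¹ = (t * t') ^ 1 * t := by rw [h.isReflection.inv, pow_one]
    rwa [h3] at h1
  | (n + 2) =>
    have h1 := (ih n (by omega)).conj (t * t')
    rw [rho_g_psi h h'] at h1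
    have h2 : t * t' * ((t * t') ^ n * t) * (t * t')⁻¹ = (t * t') ^ (n + 2) * t := by
      have : t * (t * t')⁻¹ = t * t' * t := by
        rw [mul_inv_rev, h.isReflection.inv, h'.isReflection.inv, mul_assoc]
      calc t * t' * ((t * t') ^ n * t) * (t * t')⁻¹
          = t * t' * (t * t') ^ n * (t * (t * t')⁻¹) := by simp only [mul_assoc]
        _ = (t * t') ^ (n + 1) * (t * t' * t) := by rw [this, pow_succ']
        _ = (t * t') ^ (n + 2) * t := by rw [pow_succ _ (n + 1)]; simp only [mul_assoc]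
    rw [h2] at h1
    push_cast
    exact h1

lemma isRoot_psi (k : ℤ) : IsRoot cs (psi (bil M γ η) γ η k) := by
  rcases Int.eq_nat_or_neg k with ⟨n, hn | hn⟩
  · rw [hn]
    exact (refOf_psi h h' n).isRoot
  · have h1 := ((refOf_psi h h' n).isRoot.rho t).neg
    rw [rho_t_psi h h', neg_neg] at h1
    rw [hn]
    exact h1

/-- The reflection attached to `psi k` sends `psi m` to `- psi (2k - m)`; we need two cases. -/
lemma bil_psi_succ (k : ℤ) :
    bil M (psi (bil M γ η) γ η (k + 1)) (psi (bil M γ η) γ η k) = bil M γ η := by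
  -- both sides are invariant under the shift
  have hshift : ∀ k : ℤ, bil M (psi (bil M γ η) γ η (k + 2)) (psi (bil M γ η) γ η (k + 1)) =
      bil M (psi (bil M γ η) γ η (k + 1)) (psi (bil M γ η) γ η k) := by
    intro k
    have h1 := psi_add_one (bil M γ η) γ η (k + 1)
    rw [show k + 1 + 1 = k + 2 by ring, show k + 1 - 1 = k by ring] at h1
    have h2 : bil M (psi (bil M γ η) γ η (k + 1)) (psi (bil M γ η) γ η (k + 1)) = 1 :=
      (isRoot_psi h h' _).bil_self
    have h3 : bil M (psi (bil M γ η) γ η k) (psi (bil M γ η) γ η k) = 1 :=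
      (isRoot_psi h h' _).bil_self
    have h4 : bil M (psi (bil M γ η) γ η (k + 2)) (psi (bil M γ η) γ η (k + 2)) = 1 :=
      (isRoot_psi h h' _).bil_self
    rw [h1] at h4 ⊢
    simp only [map_sub, map_smul, LinearMap.sub_apply, LinearMap.smul_apply, smul_eq_mul, h2, h3,
      bil_symm M (psi (bil M γ η) γ η k) (psi (bil M γ η) γ η (k + 1))] at h4 ⊢
    by_cases hc : bil M γ η = 0
    · simp only [hc] at h4 ⊢
      -- degenerate: use direct computation
      have : ∀ k : ℤ, bil M (psi (0 : ℝ) γ η (k + 1)) (psi (0 : ℝ) γ η k) = 0 := by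
        intro k
        simp only [psi, map_sub, map_smul, LinearMap.sub_apply, LinearMap.smul_apply, smul_eq_mul,
          h.isRoot.bil_self, h'.isRoot.bil_self, hc, bil_symm M η γ]
        have e := sc_add_one 0 k
        rw [show k + 1 - 1 = k by ring, e]
        ring
      rw [this k]; ring
    · have h5 : bil M γ η * (bil M γ η - bil M (psi (bil M γ η) γ η (k + 1))
          (psi (bil M γ η) γ η k)) = 0 := by linear_combination h4 / 4
      rcases mul_eq_zero.1 h5 with h6 | h6
      · exact absurd h6 hc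
      · linear_combination 2 * h6
  have hbase : bil M (psi (bil M γ η) γ η (0 + 1)) (psi (bil M γ η) γ η 0) = bil M γ η := by
    rw [zero_add, psi_one, psi_zero]
    simp only [map_sub, map_smul, LinearMap.sub_apply, LinearMap.smul_apply, smul_eq_mul,
      h.isRoot.bil_self, bil_symm M η γ]
    ring
  induction k using Int.induction_on with
  | zero => exact hbase
  | succ n ih =>
    have := hshift n
    rw [show (n : ℤ) + 1 + 1 = n + 2 by ring, this, ih]
  | pred n ih =>
    have := hshift (-(n : ℤ) - 1)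
    rw [show -(n : ℤ) - 1 + 2 = -n + 1 by ring, show -(n : ℤ) - 1 + 1 = -n by ring] at this
    rw [show -(n : ℤ) - 1 + 1 = -n by ring, ← this, ih]

/-- `s_{ψ_n} ψ_{n+1} = - ψ_{n-1}`. -/
lemma rho_refl_psi (n : ℕ) : rho cs ((t * t') ^ n * t) (psi (bil M γ η) γ η (n + 1)) =
    - psi (bil M γ η) γ η (n - 1) := by
  rw [(refOf_psi h h' n).rho_apply, bil_symm M (psi (bil M γ η) γ η n), bil_psi_succ h h',
    psi_add_one]
  module

lemma psi_add_psi_neg (k : ℤ) : psi (bil M γ η) γ η k + psi (bil M γ η) γ η (-k) =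
    (sc (bil M γ η) k - sc (bil M γ η) (k - 2)) • γ := by
  simp only [psi]
  set c := bil M γ η
  have e1 : sc c (-k) = - sc c (k - 2) := sc_neg c k
  have e2 : sc c (-k - 1) = - sc c (k - 1) := by
    have := sc_neg c (k + 1)
    rw [show -(k + 1) = -k - 1 by ring, show k + 1 - 2 = k - 1 by ring] at this
    exact this
  rw [e1, e2]
  module

end

/-- addition formula -/
lemma psi_add (c : ℝ) (γ η : B →₀ ℝ) (n : ℤ) (k : ℕ) :
    psi c γ η (n + 1 + k) = sc c k • psi c γ η (n + 1) - sc c (k - 1) • psi c γ η n := by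
  induction k using Nat.strong_induction_on with
  | _ k ih =>
  match k with
  | 0 => simp [sc_zero, sc_neg_one]
  | 1 =>
    have := psi_add_one c γ η (n + 1)
    rw [show n + 1 - 1 = n by ring] at this
    simp [sc_zero, sc_one, this]
  | (k + 2) =>
    have h1 := ih (k + 1) (by omega)
    have h0 := ih k (by omega)
    have h2 := psi_add_one c γ η (n + 1 + (k + 1))
    rw [show n + 1 + ((k : ℤ) + 1) - 1 = n + 1 + k by ring] at h2
    push_cast at h1 ⊢
    rw [show n + 1 + ((k : ℤ) + 2) = n + 1 + (k + 1) + 1 by ring, h2, h1, h0]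
    rw [show (k : ℤ) + 1 - 1 = k by ring, show (k : ℤ) + 2 - 1 = k + 1 by ring, sc_add_two c k,
      sc_add_one c k]
    module

lemma psi_sub (c : ℝ) (γ η : B →₀ ℝ) (n : ℤ) (k : ℕ) :
    psi c γ η (n - 1 - k) = sc c k • psi c γ η (n - 1) - sc c (k - 1) • psi c γ η n := by
  have hback : ∀ m : ℤ, psi c γ η (m - 1) = (2 * c) • psi c γ η m - psi c γ η (m + 1) := by
    intro m
    rw [psi_add_one]
    abel
  induction k using Nat.strong_induction_on with
  | _ k ih =>
  match k with
  | 0 => simp [sc_zero, sc_neg_one]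
  | 1 =>
    have := hback (n - 1)
    rw [show n - 1 + 1 = n by ring] at this
    simp [sc_zero, sc_one, this]
  | (k + 2) =>
    have h1 := ih (k + 1) (by omega)
    have h0 := ih k (by omega)
    have h2 := hback (n - 1 - (k + 1))
    rw [show n - 1 - ((k : ℤ) + 1) + 1 = n - 1 - k by ring] at h2
    push_cast at h1 ⊢
    rw [show n - 1 - ((k : ℤ) + 2) = n - 1 - (k + 1) - 1 by ring, h2, h1, h0]
    rw [show (k : ℤ) + 1 - 1 = k by ring, show (k : ℤ) + 2 - 1 = k + 1 by ring, sc_add_two c k,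
      sc_add_one c k]
    module

/-- `psi` is injective on naturals (for independent `γ, η` and `c ≥ 1`). -/
lemma psi_injective {c : ℝ} (hc : 1 ≤ c) {γ η : B →₀ ℝ}
    (hind : ∀ a b : ℝ, a • γ + b • η = 0 → a = 0 ∧ b = 0) :
    Function.Injective (fun k : ℕ => psi c γ η k) := by
  intro k l hkl
  simp only [psi] at hkl
  have h1 : (sc c k - sc c l) • γ + (sc c (l - 1) - sc c (k - 1)) • η = 0 := by
    have : (sc c k - sc c l) • γ + (sc c (l - 1) - sc c (k - 1)) • η =
      (sc c k • γ - sc c (k - 1) • η) - (sc c l • γ - sc c (l - 1) • η) := by module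
    rw [this, hkl, sub_self]
  have h2 := (hind _ _ h1).1
  exact (sc_strictMono hc).injective (by simpa using sub_eq_zero.1 h2)

lemma psi_neg_injective {c : ℝ} (hc : 1 ≤ c) {γ η : B →₀ ℝ}
    (hind : ∀ a b : ℝ, a • γ + b • η = 0 → a = 0 ∧ b = 0) :
    Function.Injective (fun k : ℕ => psi c γ η (-(k : ℤ) - 1)) := by
  intro k l hkl
  simp only [psi] at hkl
  have e : ∀ m : ℕ, sc c (-(m : ℤ) - 1 - 1) = - sc c m := by
    intro m
    have := sc_neg c (m + 2)
    rw [show -((m : ℤ) + 2) = -m - 1 - 1 by ring, show (m : ℤ) + 2 - 2 = m by ring] at this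
    exact this
  rw [e, e] at hkl
  have h1 : (sc c (-(k : ℤ) - 1) - sc c (-(l : ℤ) - 1)) • γ + (sc c k - sc c l) • η = 0 := by
    have : (sc c (-(k : ℤ) - 1) - sc c (-(l : ℤ) - 1)) • γ + (sc c k - sc c l) • η =
      (sc c (-(k : ℤ) - 1) • γ - (-sc c k) • η) -
        (sc c (-(l : ℤ) - 1) • γ - (-sc c l) • η) := by module
    rw [this, hkl, sub_self]
  have h2 := (hind _ _ h1).2
  exact (sc_strictMono hc).injective (by simpa using sub_eq_zero.1 h2)

end Pool.Agent.Helper38_Coxeter
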