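import Pool.Agent.Helper38_Coxeter.Infinite

set_option autoImplicit false

/-!
# The main comparison theorem
-/

open Module

namespace Pool.Agent.Helper38_Coxeter

variable {B W : Type*} [Group W] {M : CoxeterMatrix B} {cs : CoxeterSystem M W}

lemma refl_pow {t t' : W} (ht : cs.IsReflection t) (ht' : cs.IsReflection t') (n : ℕ) :
    t * (t * t') ^ n * t = ((t * t') ^ n)⁻¹ := by
  have hinv : t⁻¹ = t := ht.inv
  calc t * (t * t') ^ n * t = t * (t * t') ^ n * t⁻¹ := by rw [hinv]
    _ = (t * (t * t') * t⁻¹) ^ n := by rw [conj_pow]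
    _ = ((t * t')⁻¹) ^ n := by rw [hinv, refl_mul_inv ht ht']
    _ = ((t * t') ^ n)⁻¹ := inv_pow _ _

/-- Roots of distinct reflections are independent. -/
lemma indep_of_ne {t t' : W} {γ δ : B →₀ ℝ} (h : RefOf cs t γ) (h' : RefOf cs t' δ)
    (hne : t ≠ t') (a b : ℝ) (hab : a • γ + b • δ = 0) : a = 0 ∧ b = 0 := by
  have hb : b = 0 := by
    by_contra hb
    have h1 : δ = (-(a / b)) • γ := by
      have : b⁻¹ • (a • γ + b • δ) = 0 := by rw [hab, smul_zero]
      rw [smul_add, smul_smul, smul_smul, inv_mul_cancel₀ hb, one_smul] at this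
      have h2 : δ = -((b⁻¹ * a) • γ) := (neg_eq_of_add_eq_zero_right this).symm
      rw [h2, ← neg_smul]
      congr 1
      ring
    have h2 := h'.isRoot.bil_self
    rw [h1] at h2
    simp only [map_smul, LinearMap.smul_apply, h.isRoot.bil_self, smul_eq_mul, mul_one] at h2
    have h3 : -(a / b) = 1 ∨ -(a / b) = -1 := by
      have h4 : (-(a / b) - 1) * (-(a / b) + 1) = 0 := by linear_combination h2
      rcases mul_eq_zero.1 h4 with h5 | h5
      · left; linarith
      · right; linarith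
    rcases h3 with h3 | h3
    · rw [h3, one_smul] at h1
      rw [h1] at h'
      exact hne (h.unique h')
    · rw [h3, neg_one_smul] at h1
      rw [h1] at h'
      exact hne (h.neg.unique h')
  subst hb
  rw [zero_smul, add_zero] at hab
  exact ⟨(smul_eq_zero.1 hab).resolve_right h.isRoot.ne_zero, rfl⟩

namespace RootAction

variable {G : Type*} [Group G] (A : RootAction cs G)

/-- The finite case. -/
lemma finite_case {x : G} (hx : x * x = 1)
    (hQP : ∀ (v t : W), cs.IsReflection t →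
      A.len (A.ι t * (A.ι v * x * A.ι v⁻¹) * A.ι t) = A.len (A.ι v * x * A.ι v⁻¹) →
      A.ι t * (A.ι v * x * A.ι v⁻¹) * A.ι t = A.ι v * x * A.ι v⁻¹)
    {t t' : W} {γ δ : B →₀ ℝ} (hγ : RefOf cs t γ) (hδ : RefOf cs t' δ)
    (h1 : A.T x γ = δ) (h2 : A.T x δ = γ) (hc : (bil M γ δ) ^ 2 < 1)
    (htx : x * A.ι t * x⁻¹ = A.ι t')
    (hlt : A.len (A.ι (t * t') * x) < A.len x) : A.Le (A.ι (t * t') * x) x := by
  obtain ⟨v0, i, j, hij, hmap⟩ := exists_standard hγ hδ hc
  obtain ⟨u0, hu0, v, hv0, hvi, hvj⟩ := (selfAction cs).exists_coset_decomp i j v0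
  have hv0' : v0 = u0 * v := hv0
  have hvi' : NN (rho cs v⁻¹ (sr i)) := hvi
  have hvj' : NN (rho cs v⁻¹ (sr j)) := hvj
  have hxinv : x⁻¹ = x := inv_eq_of_mul_eq_one_left hx
  set P := Submodule.span ℝ {γ, δ} with hP
  have hγP : γ ∈ P := Submodule.subset_span (by simp)
  have hδP : δ ∈ P := Submodule.subset_span (by simp)
  have hv : v = u0⁻¹ * v0 := by rw [hv0']; group
  have hvP : ∀ y ∈ P, rho cs v y ∈ PJ i j := by
    intro y hy
    rw [hv, map_mul, LinearEquiv.mul_apply]
    apply rho_mem_of_mem ((WJ cs i j).inv_mem hu0)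
    have : rho cs v0 y ∈ P.map (rho cs v0 : (B →₀ ℝ) →ₗ[ℝ] (B →₀ ℝ)) := ⟨y, hy, rfl⟩
    rw [hmap] at this
    exact this
  have hvP' : ∀ y ∈ PJ i j, rho cs v⁻¹ y ∈ P := by
    intro y hy
    have h3 : rho cs u0 y ∈ PJ i j := rho_mem_of_mem hu0 hy
    have h4 : rho cs u0 y ∈ P.map (rho cs v0 : (B →₀ ℝ) →ₗ[ℝ] (B →₀ ℝ)) := by
      rw [hmap]; exact h3
    obtain ⟨z, hz, hzy⟩ := h4
    have hzy' : rho cs v0 z = rho cs u0 y := hzy
    have : rho cs v⁻¹ y = z := by
      have h5 : v⁻¹ = v0⁻¹ * u0 := by rw [hv]; group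
      rw [h5, map_mul, LinearEquiv.mul_apply, ← hzy', ← LinearEquiv.mul_apply, ← map_mul,
        inv_mul_cancel, map_one, LinearEquiv.coe_one, id_eq]
    rw [this]
    exact hz
  have hxP : ∀ y ∈ P, A.T x y ∈ P := by
    intro y hy
    obtain ⟨a, b, rfl⟩ := Submodule.mem_span_pair.1 hy
    rw [map_add, map_smul, map_smul, h1, h2]
    exact P.add_mem (P.smul_mem _ hδP) (P.smul_mem _ hγP)
  set x1 := A.ι v * x * A.ι v⁻¹ with hx1
  have hx1P : ∀ y ∈ PJ i j, A.T x1 y ∈ PJ i j := by
    intro y hy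
    rw [hx1, map_mul, map_mul, LinearEquiv.mul_apply, LinearEquiv.mul_apply, A.T_ι, A.T_ι]
    exact hvP _ (hxP _ (hvP' _ hy))
  have hx1inv : x1⁻¹ = x1 := by
    rw [hx1, map_inv]
    simp only [mul_inv_rev, inv_inv, hxinv, mul_assoc]
  obtain ⟨u, hu, y, hx1u, hyi, hyj⟩ := A.exists_coset_decomp i j x1
  have hyP : ∀ w ∈ PJ i j, A.T y⁻¹ w ∈ PJ i j := by
    intro w hw
    have hy : y⁻¹ = x1 * A.ι u := by
      rw [← hx1inv, hx1u]; group
    rw [hy, map_mul, LinearEquiv.mul_apply, A.T_ι]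
    exact hx1P _ (rho_mem_of_mem hu hw)
  set t1 := v * t * v⁻¹ with ht1
  set t1' := v * t' * v⁻¹ with ht1'
  have ht1m : t1 ∈ WJ cs i j := mem_WJ_of_refOf (hγ.conj v) (hvP _ hγP)
  have ht1m' : t1' ∈ WJ cs i j := mem_WJ_of_refOf (hδ.conj v) (hvP _ hδP)
  have ht1r : cs.IsReflection t1 := (hγ.conj v).isReflection
  have ht1r' : cs.IsReflection t1' := (hδ.conj v).isReflection
  set u' := t1 * t1' * u with hu'
  have hum' : u' ∈ WJ cs i j := (WJ cs i j).mul_mem ((WJ cs i j).mul_mem ht1m ht1m') hu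
  have hx1' : A.ι (t1 * t1') * x1 = A.ι u' * y := by
    rw [hx1u, ← mul_assoc, ← map_mul]
  have hlen1 : A.len x1 = cs.length u + A.len y := by
    rw [hx1u]; exact A.len_mul_of_mem hyi hyj hu
  have hlen1' : A.len (A.ι (t1 * t1') * x1) = cs.length u' + A.len y := by
    rw [hx1']; exact A.len_mul_of_mem hyi hyj hum'
  have hpar : cs.length u' % 2 = cs.length u % 2 := by
    have e1 := Nat.odd_iff.1 ht1r.odd_length
    have e2 := Nat.odd_iff.1 ht1r'.odd_length
    have e3 := cs.length_mul_mod_two (t1 * t1') u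
    rw [← hu'] at e3
    have e4 := cs.length_mul_mod_two t1 t1'
    omega
  have hXu : A.ι v⁻¹ * (A.ι u * y) * A.ι v = x := by
    rw [← hx1u, hx1]; simp only [map_inv]; group
  have hXu' : A.ι v⁻¹ * (A.ι u' * y) * A.ι v = A.ι (t * t') * x := by
    rw [← hx1', hx1, ht1, ht1']
    simp only [map_inv, map_mul]; group
  rcases lt_trichotomy (cs.length u') (cs.length u) with hl | hl | hl
  · obtain ⟨m, hm1, hm2⟩ := A.two_steps hyP hyi hyj hvi' hvj' hu hum' hpar hl
    rw [hXu'] at hm1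
    rw [hXu] at hm2
    exact (Relation.ReflTransGen.single hm1).trans (Relation.ReflTransGen.single hm2)
  · exfalso
    have e1 : A.ι t1 * x1 * A.ι t1 = A.ι (t1 * t1') * x1 := by
      have : x1 * A.ι t1 * x1⁻¹ = A.ι t1' := by
        rw [hx1, ht1, ht1']
        simp only [map_mul, map_inv]
        rw [← htx]
        group
      have e0 : A.ι (t1 * t1') = A.ι t1 * A.ι t1' := map_mul _ _ _
      rw [e0, ← this]
      group
    have e2 := hQP v t1 ht1r
    rw [← hx1, e1] at e2
    have e3 := e2 (by rw [hlen1, hlen1', hl])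
    have e4 : A.ι (t * t') * x = x := by
      rw [← hXu', ← hXu, ← hx1', ← hx1u, e3]
    rw [e4] at hlt
    exact lt_irrefl _ hlt
  · exfalso
    obtain ⟨m, hm1, hm2⟩ := A.two_steps hyP hyi hyj hvi' hvj' hum' hu hpar.symm hl
    rw [hXu] at hm1
    rw [hXu'] at hm2
    have := hm1.len_lt
    have := hm2.len_lt
    omega

/-- The infinite (mixed) case. -/
lemma infinite_case {x : G} (hx : x * x = 1) {t t' : W} {γ η : B →₀ ℝ}
    (hγ : RefOf cs t γ) (hη : RefOf cs t' η) (hγn : NN γ) (hηn : NN η) (hne : t ≠ t')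
    (hneg : NN (-(rho cs t η))) (hc2 : 1 ≤ (bil M γ η) ^ 2) {σ : ℝ} (hσ : σ = 1 ∨ σ = -1)
    (h1 : A.T x γ = σ • η) (h2 : A.T x η = σ • γ)
    (hlt : A.len (A.ι (t * t') * x) < A.len x) : A.Le (A.ι (t * t') * x) x := by
  have hxinv : x⁻¹ = x := inv_eq_of_mul_eq_one_left hx
  set c := bil M γ η with hcdef
  have hc : 1 ≤ c := by
    have h3 : 0 < c := by
      obtain ⟨b, hb⟩ : ∃ b, η b ≠ 0 := by
        by_contra hcon
        push Not at hcon
        exact hη.isRoot.ne_zero (Finsupp.ext hcon)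
      have hb' : 0 < η b := lt_of_le_of_ne (hηn b) (Ne.symm hb)
      have h4 := hneg b
      rw [hγ.rho_apply, ← hcdef, Finsupp.neg_apply, Finsupp.sub_apply, Finsupp.smul_apply,
        smul_eq_mul] at h4
      have h5 := hγn b
      by_contra hcon
      push Not at hcon
      nlinarith
    nlinarith
  set ψ : ℤ → (B →₀ ℝ) := psi c γ η with hψ
  have hind : ∀ a b : ℝ, a • γ + b • η = 0 → a = 0 ∧ b = 0 := indep_of_ne hγ hη hne
  have hTψ : ∀ k : ℤ, A.T x (ψ k) = σ • ψ (-1 - k) := by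
    intro k
    simp only [hψ, psi, map_sub, map_smul, h1, h2]
    have e1 : sc c (-1 - k) = - sc c (k - 1) := by
      have := sc_neg c (k + 1)
      rw [show -(k + 1) = -1 - k by ring, show k + 1 - 2 = k - 1 by ring] at this
      exact this
    have e2 : sc c (-1 - k - 1) = - sc c k := by
      have := sc_neg c (k + 2)
      rw [show -(k + 2) = -1 - k - 1 by ring, show k + 2 - 2 = k by ring] at this
      exact this
    rw [e1, e2]
    module
  have hroot : ∀ k, IsRoot cs (ψ k) := isRoot_psi hγ hη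
  have hψ1 : NN (ψ 1) := by
    have h3 := rho_t_psi hγ hη (-1)
    rw [psi_neg_one, neg_neg] at h3
    rw [h3, neg_neg] at hneg
    exact hneg
  have hψm1 : NN (ψ (-1)) := by
    rw [hψ, psi_neg_one]; exact hηn
  -- the threshold
  have hex : ∃ m : ℕ, 1 ≤ m ∧ ¬ (NN (ψ m) ∧ NN (ψ (-m))) := by
    by_contra hcon
    push Not at hcon
    have hinf : {ε | IsRoot cs ε ∧ NN ε ∧ NN (-(rho cs t ε))}.Infinite := by
      refine Set.infinite_of_injective_forall_mem (f := fun m : ℕ => ψ ((m + 1 : ℕ) : ℤ)) ?_ ?_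
      · intro k l hkl
        have := psi_injective hc hind (a₁ := k + 1) (a₂ := l + 1) hkl
        omega
      · intro m
        obtain ⟨h3, h4⟩ := hcon (m + 1) (by omega)
        refine ⟨hroot _, h3, ?_⟩
        have h5 := rho_t_psi hγ hη ((m + 1 : ℕ) : ℤ)
        rw [hψ, h5, neg_neg]
        exact h4
    exact hinf (finite_inversions t)
  classical
  obtain ⟨n, hn1, hnn, hnn', hnot⟩ : ∃ n : ℕ, 1 ≤ n ∧ NN (ψ n) ∧ NN (ψ (-n)) ∧
      ¬ (NN (ψ (n + 1)) ∧ NN (ψ (-n - 1))) := by
    have hN := Nat.find_spec hex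
    set N := Nat.find hex with hNdef
    have hN1 : N ≠ 1 := by
      intro e
      rw [e] at hN
      exact hN.2 ⟨hψ1, hψm1⟩
    obtain ⟨n, hn⟩ : ∃ n, N = n + 1 := ⟨N - 1, by omega⟩
    have hmin := Nat.find_min hex (m := n) (by omega)
    have hn1 : 1 ≤ n := by omega
    have h3 : NN (ψ n) ∧ NN (ψ (-n)) := by
      by_contra h4
      exact hmin ⟨hn1, h4⟩
    refine ⟨n, hn1, h3.1, h3.2, ?_⟩
    have h4 := hN.2
    rw [hn] at h4
    push_cast at h4
    rw [show -((n : ℤ) + 1) = -n - 1 by ring] at h4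
    exact h4
  -- coefficients
  have hcoef : ∀ m : ℕ, 0 < sc c ((m : ℤ) + 1) - sc c ((m : ℤ) + 1 - 2) := by
    intro m
    have e1 := sc_incr hc (m + 1)
    have e2 := sc_incr hc m
    push_cast at e1 e2
    rw [show (m : ℤ) + 1 - 1 = m by ring] at e1
    rw [show (m : ℤ) + 1 - 2 = m - 1 by ring]
    linarith [e1.2, e2.2]
  have hsum : ∀ m : ℕ, ψ ((m : ℤ) + 1) + ψ (-(m : ℤ) - 1) =
      (sc c ((m : ℤ) + 1) - sc c ((m : ℤ) + 1 - 2)) • γ := by
    intro m
    have := psi_add_psi_neg hγ hη ((m : ℤ) + 1)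
    rw [show -((m : ℤ) + 1) = -m - 1 by ring] at this
    exact this
  have hpos_of_neg : ∀ m : ℕ, NN (-(ψ ((m : ℤ) + 1))) → NN (ψ (-(m : ℤ) - 1)) := by
    intro m hm
    have : ψ (-(m : ℤ) - 1) = (sc c ((m : ℤ) + 1) - sc c ((m : ℤ) + 1 - 2)) • γ +
        -(ψ ((m : ℤ) + 1)) := by rw [← hsum m]; abel
    rw [this]
    exact (hγn.smul (hcoef m).le).add hm
  have hpos_of_neg' : ∀ m : ℕ, NN (-(ψ (-(m : ℤ) - 1))) → NN (ψ ((m : ℤ) + 1)) := by
    intro m hm
    have : ψ ((m : ℤ) + 1) = (sc c ((m : ℤ) + 1) - sc c ((m : ℤ) + 1 - 2)) • γ +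
        -(ψ (-(m : ℤ) - 1)) := by rw [← hsum m]; abel
    rw [this]
    exact (hγn.smul (hcoef m).le).add hm
  have hcases : NN (-(ψ ((n : ℤ) + 1))) ∨ NN (-(ψ (-(n : ℤ) - 1))) := by
    rcases (hroot ((n : ℤ) + 1)).nn_or with h3 | h3
    · rcases (hroot (-(n : ℤ) - 1)).nn_or with h4 | h4
      · exact absurd ⟨h3, h4⟩ hnot
      · exact Or.inr h4
    · exact Or.inl h3
  -- group elements
  set ρn := (t * t') ^ n * t with hρn
  set ρn1 := (t * t') ^ (n + 1) * t with hρn1
  have hRn : RefOf cs ρn (ψ n) := refOf_psi hγ hη n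
  have hRn1 : RefOf cs ρn1 (ψ ((n : ℤ) + 1)) := by
    have := refOf_psi hγ hη (n + 1)
    push_cast at this
    exact this
  have hprod : ρn1 * ρn = t * t' := by
    have e := refl_pow hγ.isReflection hη.isReflection n
    calc ρn1 * ρn = (t * t') ^ (n + 1) * (t * (t * t') ^ n * t) := by
          rw [hρn, hρn1]; simp only [mul_assoc]
      _ = (t * t') ^ (n + 1) * ((t * t') ^ n)⁻¹ := by rw [e]
      _ = t * t' := by rw [pow_succ']; group
  set x'' := A.ι ρn * x with hx''
  have hxx' : A.ι ρn1 * x'' = A.ι (t * t') * x := by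
    rw [hx'', ← mul_assoc, ← map_mul, hprod]
  have hTx'' : ∀ y, A.T x''⁻¹ y = A.T x (rho cs ρn y) := by
    intro y
    have : x''⁻¹ = x * A.ι ρn := by
      rw [hx'', mul_inv_rev, hxinv, ← map_inv, hRn.isReflection.inv]
    rw [this, map_mul, LinearEquiv.mul_apply, A.T_ι]
  have hTn : A.T x⁻¹ (ψ n) = σ • ψ (-(n : ℤ) - 1) := by
    rw [hxinv, hTψ, show (-1 : ℤ) - n = -n - 1 by ring]
  have hTn1 : A.T x''⁻¹ (ψ ((n : ℤ) + 1)) = -(σ • ψ (-(n : ℤ))) := by
    have h3 := rho_refl_psi hγ hη n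
    rw [hTx'']
    have h4 : rho cs ρn (ψ ((n : ℤ) + 1)) = -ψ ((n : ℤ) - 1) := h3
    rw [h4, map_neg, hTψ, show (-1 : ℤ) - (n - 1) = -n by ring]
  rcases hσ with hσ | hσ
  · -- σ = 1 : impossible
    exfalso
    rw [hσ] at hTψ
    simp only [one_smul] at hTψ
    rcases hcases with hI | hII
    · have hall : ∀ k : ℕ, NN (-(ψ ((n : ℤ) + 1 + k))) := by
        intro k
        have e := psi_add c γ η n k
        rw [hψ, e, neg_sub]
        have : sc c ((k : ℤ) - 1) • psi c γ η n - sc c k • psi c γ η (n + 1) =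
          sc c ((k : ℤ) - 1) • psi c γ η n + sc c k • (-(psi c γ η (n + 1))) := by module
        rw [this]
        exact (hnn.smul (sc_incr hc k).1).add (hI.smul (sc_nonneg hc k))
      have hinf : {ε | IsRoot cs ε ∧ NN ε ∧ NN (-(A.T x ε))}.Infinite := by
        refine Set.infinite_of_injective_forall_mem
          (f := fun m : ℕ => ψ (-((n + 1 + m : ℕ) : ℤ) - 1)) ?_ ?_
        · intro k l hkl
          have := psi_neg_injective hc hind (a₁ := n + 1 + k) (a₂ := n + 1 + l) hkl
          omega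
        · intro m
          refine ⟨hroot _, ?_, ?_⟩
          · apply hpos_of_neg
            have := hall (m + 1)
            push_cast at this ⊢
            rw [show (n : ℤ) + 1 + m + 1 = n + 1 + (m + 1) by ring]
            exact this
          · rw [hTψ]
            have := hall m
            push_cast
            rw [show (-1 : ℤ) - (-((n : ℤ) + 1 + m) - 1) = n + 1 + m by ring]
            exact this
      exact hinf (A.fin x)
    · have hall : ∀ k : ℕ, NN (-(ψ (-(n : ℤ) - 1 - k))) := by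
        intro k
        have e := psi_sub c γ η (-n) k
        rw [hψ, e, neg_sub]
        have : sc c ((k : ℤ) - 1) • psi c γ η (-n) - sc c k • psi c γ η (-n - 1) =
          sc c ((k : ℤ) - 1) • psi c γ η (-n) + sc c k • (-(psi c γ η (-n - 1))) := by module
        rw [this]
        exact (hnn'.smul (sc_incr hc k).1).add (hII.smul (sc_nonneg hc k))
      have hinf : {ε | IsRoot cs ε ∧ NN ε ∧ NN (-(A.T x ε))}.Infinite := by
        refine Set.infinite_of_injective_forall_mem
          (f := fun m : ℕ => ψ ((n + 1 + m : ℕ) : ℤ)) ?_ ?_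
        · intro k l hkl
          have := psi_injective hc hind (a₁ := n + 1 + k) (a₂ := n + 1 + l) hkl
          omega
        · intro m
          refine ⟨hroot _, ?_, ?_⟩
          · have h3 := hpos_of_neg' (n + m) (by
              have := hall m
              push_cast
              rw [show -((n : ℤ) + m) - 1 = -n - 1 - m by ring]
              exact this)
            push_cast at h3 ⊢
            rw [show (n : ℤ) + 1 + m = n + m + 1 by ring]
            exact h3
          · rw [hTψ]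
            have := hall (m + 1)
            push_cast at this ⊢
            rw [show (-1 : ℤ) - ((n : ℤ) + 1 + m) = -n - 1 - (m + 1) by ring]
            exact this
      exact hinf (A.fin x)
  · -- σ = -1
    rw [hσ] at hTn hTn1
    rw [neg_one_smul] at hTn
    rw [neg_one_smul, neg_neg] at hTn1
    rcases hcases with hI | hII
    · have hs1 : A.Step x'' x := by
        apply A.step_of_NN_neg x hRn hnn
        rw [hTn, neg_neg]
        exact hpos_of_neg n hI
      have hs2 : A.Step (A.ι ρn1 * x'') x'' := by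
        apply A.step_of_NN_neg x'' hRn1.neg hI
        rw [map_neg, neg_neg, hTn1]
        exact hnn'
      rw [hxx'] at hs2
      exact (Relation.ReflTransGen.single hs2).trans (Relation.ReflTransGen.single hs1)
    · exfalso
      have hs1 : A.Step x x'' := by
        apply A.step_of_NN x hRn hnn
        rw [hTn]
        exact hII
      have hs2 : A.Step x'' (A.ι ρn1 * x'') := by
        apply A.step_of_NN x'' hRn1 (hpos_of_neg' n hII)
        rw [hTn1]
        exact hnn'
      rw [hxx'] at hs2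
      have := hs1.len_lt
      have := hs2.len_lt
      omega

/-- **Main theorem** in the abstract setting. -/
theorem main {x : G} (hx : x * x = 1)
    (hQP : ∀ (v t : W), cs.IsReflection t →
      A.len (A.ι t * (A.ι v * x * A.ι v⁻¹) * A.ι t) = A.len (A.ι v * x * A.ι v⁻¹) →
      A.ι t * (A.ι v * x * A.ι v⁻¹) * A.ι t = A.ι v * x * A.ι v⁻¹)
    {t : W} (ht : cs.IsReflection t) (hlt : A.len (A.ι t * x * A.ι t) < A.len x) :
    A.Le (A.ι t * x * A.ι t) x := by
  obtain ⟨γ, hγ, hγn⟩ := exists_refOf ht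
  obtain ⟨t', hδ, htx⟩ := A.conj x hγ
  have hxinv : x⁻¹ = x := inv_eq_of_mul_eq_one_left hx
  set δ := A.T x γ with hδdef
  have hTδ : A.T x δ = γ := by
    rw [hδdef, ← LinearEquiv.mul_apply, ← map_mul, hx, map_one, LinearEquiv.coe_one, id_eq]
  have hx' : A.ι t * x * A.ι t = A.ι (t * t') * x := by
    rw [map_mul, ← htx]; group
  rw [hx'] at hlt ⊢
  have hne : t ≠ t' := by
    intro e
    rw [← e, ht.mul_self, map_one, one_mul] at hlt
    exact lt_irrefl _ hlt
  by_cases hc : (bil M γ δ) ^ 2 < 1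
  · exact A.finite_case hx hQP hγ hδ rfl hTδ hc htx hlt
  push Not at hc
  -- second form of the intermediate element
  have hmid : A.ι t' * x = x * A.ι t := by rw [← htx]; group
  have hTmid : ∀ y, A.T (A.ι t' * x)⁻¹ y = rho cs t (A.T x y) := by
    intro y
    rw [hmid, mul_inv_rev, hxinv, ← map_inv, ht.inv, map_mul, LinearEquiv.mul_apply, A.T_ι]
  have hxx : A.ι t * (A.ι t' * x) = A.ι (t * t') * x := by rw [map_mul, mul_assoc]
  rcases hδ.isRoot.nn_or with h1 | h1 <;> rcases (hδ.isRoot.rho t).nn_or with h2 | h2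
  · -- up, up
    exfalso
    have hs1 : A.Step x (A.ι t' * x) := by
      apply A.step_of_NN x hδ h1
      rw [hxinv, hTδ]; exact hγn
    have hs2 : A.Step (A.ι t' * x) (A.ι t * (A.ι t' * x)) := by
      apply A.step_of_NN _ hγ hγn
      rw [hTmid]; exact h2
    rw [hxx] at hs2
    have := hs1.len_lt
    have := hs2.len_lt
    omega
  · -- mixed, σ = 1
    exact A.infinite_case hx hγ hδ hγn h1 hne h2 hc (Or.inl rfl) (by rw [one_smul])
      (by rw [one_smul]; exact hTδ) hlt
  · -- mixed, σ = -1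
    refine A.infinite_case hx hγ hδ.neg hγn h1 hne ?_ ?_ (Or.inr rfl) ?_ ?_ hlt
    · rw [map_neg, neg_neg]; exact h2
    · rw [map_neg, neg_sq]; exact hc
    · rw [neg_one_smul, neg_neg]
    · rw [map_neg, hTδ, neg_one_smul]
  · -- down, down
    have hs1 : A.Step (A.ι t' * x) x := by
      apply A.step_of_NN_neg x hδ.neg h1
      rw [hxinv, map_neg, hTδ, neg_neg]; exact hγn
    have hs2 : A.Step (A.ι t * (A.ι t' * x)) (A.ι t' * x) := by
      apply A.step_of_NN_neg _ hγ hγn
      rw [hTmid]; exact h2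
    rw [hxx] at hs2
    exact (Relation.ReflTransGen.single hs2).trans (Relation.ReflTransGen.single hs1)

end RootAction

end Pool.Agent.Helper38_Coxeter
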