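import Pool.Agent.Helper38_Coxeter.Roots

set_option autoImplicit false

/-!
# Groups acting on the root system, with a length function

The abstract framework in which the extended group `W ⋊ Aut(W,S)` is treated.
-/

open Module

namespace Pool.Agent.Helper38_Coxeter

variable {B W : Type*} [Group W] {M : CoxeterMatrix B} (cs : CoxeterSystem M W)

/-- A group `G` containing (an image of) `W`, acting on the root system by isometries, with a length
function satisfying the root criterion. -/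
structure RootAction (G : Type*) [Group G] where
  ι : W →* G
  T : G →* ((B →₀ ℝ) ≃ₗ[ℝ] (B →₀ ℝ))
  len : G → ℕ
  T_ι : ∀ w, T (ι w) = rho cs w
  bil_T : ∀ g u v, bil M (T g u) (T g v) = bil M u v
  conj : ∀ (g : G) {t : W} {γ : B →₀ ℝ}, RefOf cs t γ →
    ∃ t', RefOf cs t' (T g γ) ∧ g * ι t * g⁻¹ = ι t'
  len_simple : ∀ (i : B) (g : G),
    len (ι (cs.simple i) * g) = len g + 1 ∨ len (ι (cs.simple i) * g) + 1 = len g
  len_lt : ∀ {t : W} {γ : B →₀ ℝ} (g : G), RefOf cs t γ → NN γ → NN (-(T g⁻¹ γ)) →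
    len (ι t * g) < len g
  len_gt : ∀ {t : W} {γ : B →₀ ℝ} (g : G), RefOf cs t γ → NN γ → NN (T g⁻¹ γ) →
    len g < len (ι t * g)
  fin : ∀ g, {γ | IsRoot cs γ ∧ NN γ ∧ NN (-(T g γ))}.Finite

namespace RootAction

variable {cs} {G : Type*} [Group G] (A : RootAction cs G)

/-- One step up: left multiplication by a reflection which increases the length. -/
def Step (a b : G) : Prop := ∃ t, cs.IsReflection t ∧ b = A.ι t * a ∧ A.len a < A.len b

/-- The Bruhat order on `G`. -/
def Le : G → G → Prop := Relation.ReflTransGen A.Step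

lemma root_T (g : G) {γ : B →₀ ℝ} (h : IsRoot cs γ) : IsRoot cs (A.T g γ) := by
  obtain ⟨t, ht⟩ := h.exists_refOf
  obtain ⟨t', ht', _⟩ := A.conj g ht
  exact ht'.isRoot

lemma T_inv_apply_T (g : G) (v : B →₀ ℝ) : A.T g⁻¹ (A.T g v) = v := by
  rw [← LinearEquiv.mul_apply, ← map_mul, inv_mul_cancel, map_one, LinearEquiv.coe_one, id_eq]

lemma T_apply_T_inv (g : G) (v : B →₀ ℝ) : A.T g (A.T g⁻¹ v) = v := by
  rw [← LinearEquiv.mul_apply, ← map_mul, mul_inv_cancel, map_one, LinearEquiv.coe_one, id_eq]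

lemma Step.len_lt {A : RootAction cs G} {a b : G} (h : A.Step a b) : A.len a < A.len b := by
  obtain ⟨_, _, _, h⟩ := h
  exact h

lemma step_of_NN {t : W} {γ : B →₀ ℝ} (g : G) (h : RefOf cs t γ) (h1 : NN γ)
    (h2 : NN (A.T g⁻¹ γ)) : A.Step g (A.ι t * g) :=
  ⟨t, h.isReflection, rfl, A.len_gt g h h1 h2⟩

lemma step_of_NN_neg {t : W} {γ : B →₀ ℝ} (g : G) (h : RefOf cs t γ) (h1 : NN γ)
    (h2 : NN (-(A.T g⁻¹ γ))) : A.Step (A.ι t * g) g := by
  refine ⟨t, h.isReflection, ?_, A.len_lt g h h1 h2⟩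
  rw [← mul_assoc, ← map_mul, h.isReflection.mul_self, map_one, one_mul]

end RootAction

/-- Sum of coordinates. -/
noncomputable def ht : (B →₀ ℝ) →ₗ[ℝ] ℝ := Finsupp.linearCombination ℝ (fun _ => (1 : ℝ))

lemma linearCombination_pos {p : B → ℝ} (hp : ∀ b, 0 < p b) {v : B →₀ ℝ} (hv : NN v)
    (hv0 : v ≠ 0) : 0 < Finsupp.linearCombination ℝ p v := by
  rw [Finsupp.linearCombination_apply, Finsupp.sum]
  apply Finset.sum_pos
  · intro b hb
    have h1 := hv b
    have h2 : v b ≠ 0 := Finsupp.mem_support_iff.1 hb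
    have h3 : 0 < v b := lt_of_le_of_ne h1 (Ne.symm h2)
    exact mul_pos h3 (hp b)
  · exact Finsupp.support_nonempty_iff.2 hv0

lemma linearCombination_nonneg {p : B → ℝ} (hp : ∀ b, 0 ≤ p b) {v : B →₀ ℝ} (hv : NN v) :
    0 ≤ Finsupp.linearCombination ℝ p v := by
  rw [Finsupp.linearCombination_apply, Finsupp.sum]
  exact Finset.sum_nonneg fun b _ => mul_nonneg (hv b) (hp b)

lemma ht_pos {v : B →₀ ℝ} (hv : NN v) (hv0 : v ≠ 0) : 0 < ht v :=
  linearCombination_pos (fun _ => one_pos) hv hv0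

/-- A positive real sequence cannot satisfy `h (k+2) = l h (k+1) - h k` with `l < 2`. -/
lemma no_positive_recurrence {h : ℕ → ℝ} {l : ℝ} (hl : l < 2) (hpos : ∀ k, 0 < h k)
    (hrec : ∀ k, h (k + 2) = l * h (k + 1) - h k) : False := by
  have hratio : ∀ k, h (k + 1) ≤ (h 1 / h 0 - k * (2 - l)) * h k := by
    intro k
    induction k with
    | zero =>
      have := hpos 0
      simp only [zero_add, Nat.cast_zero, zero_mul, sub_zero]
      rw [div_mul_cancel₀ _ this.ne']
    | succ k ih =>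
      have h0 := hpos k
      have h1 := hpos (k + 1)
      rw [hrec k]
      push_cast
      set a := h 1 / h 0 - k * (2 - l) with ha
      have e : h 1 / h 0 - ((k : ℝ) + 1) * (2 - l) = a - (2 - l) := by rw [ha]; ring
      rw [e]
      -- h k ≥ h (k+1) / a ; need l h1 - h0 ≤ (a - 2 + l) h1, i.e. (2 - a) h1 ≤ h0
      have ha0 : 0 < a := by
        by_contra hcon
        push Not at hcon
        nlinarith
      have key : (2 - a) * h (k + 1) ≤ h k := by
        by_cases h2 : 2 - a ≤ 0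
        · nlinarith
        · push Not at h2
          have h3 : (2 - a) * h (k + 1) ≤ (2 - a) * (a * h k) :=
            mul_le_mul_of_nonneg_left ih h2.le
          nlinarith [mul_nonneg (sq_nonneg (a - 1)) h0.le]
      nlinarith
  obtain ⟨k, hk⟩ := exists_nat_gt ((h 1 / h 0) / (2 - l))
  have h1 := hratio k
  have h2 := hpos (k + 1)
  have h3 := hpos k
  have h4 : h 1 / h 0 - k * (2 - l) < 0 := by
    rw [div_lt_iff₀ (by linarith)] at hk
    linarith
  nlinarith

end Pool.Agent.Helper38_Coxeter
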