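import Pool.Agent.Helper38_Coxeter.Main
import Pool.Agent.Helper38_Coxeter.Defs

set_option autoImplicit false

/-!
# The extended group acts on the root system
-/

open Module Polynomial.Chebyshev

namespace Pool.Agent.Helper38_Coxeter

variable {B W : Type*} [Group W] {M : CoxeterMatrix B} (cs : CoxeterSystem M W)

/-- The order of `s_i s_j` is exactly `M i j`. -/
lemma dvd_of_pow_eq_one {i j : B} (hij : i ≠ j) {n : ℕ}
    (h : (cs.simple i * cs.simple j) ^ n = 1) : M i j ∣ n := by
  have h1 := cs.prod_alternatingWord_eq_mul_pow i j (2 * n)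
  rw [if_pos (by simp), one_mul, show 2 * n / 2 = n by omega, h] at h1
  have h2 := rho_alternatingWord_sr cs i j (2 * n)
  rw [h1, map_one, LinearEquiv.coe_one, id_eq, if_pos (by simp)] at h2
  have hi := DFunLike.congr_fun h2 i
  have hj := DFunLike.congr_fun h2 j
  simp [sr, hij, Ne.symm hij] at hi hj
  -- hi : 1 = ch (2n), hj : ch (2n - 1) = 0
  rcases Nat.eq_zero_or_pos (M i j) with h0 | hpos
  · rw [h0]
    have hj' : (S ℝ (2 * (n : ℤ) - 1)).eval (2 * Real.cos (Real.pi / M i j)) = 0 := by
      have : ch (M := M) i j (2 * (n : ℤ) - 1) = 0 := by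
        first
          | exact hj
          | exact hj.symm
      exact this
    rw [h0, Nat.cast_zero, div_zero, Real.cos_zero, mul_one, S_eval_two] at hj'
    push_cast at hj'
    have : (n : ℝ) = 0 := by linarith
    have hn : n = 0 := by exact_mod_cast this
    rw [hn]
  · have hne1 : M i j ≠ 1 := M.off_diagonal i j hij
    have h2 : 2 ≤ M i j := by omega
    have hsin := sin_pi_div_pos h2
    have e1 := S_two_mul_real_cos (Real.pi / M i j) (2 * (n : ℤ) - 1)
    have e2 := S_two_mul_real_cos (Real.pi / M i j) (2 * (n : ℤ))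
    have hj' : (S ℝ (2 * (n : ℤ) - 1)).eval (2 * Real.cos (Real.pi / M i j)) = 0 := by
      have : ch (M := M) i j (2 * (n : ℤ) - 1) = 0 := by
        first
          | exact hj
          | exact hj.symm
      exact this
    have hi' : (S ℝ (2 * (n : ℤ))).eval (2 * Real.cos (Real.pi / M i j)) = 1 := by
      have : ch (M := M) i j (2 * (n : ℤ)) = 1 := by
        first
          | exact hi
          | exact hi.symm
      exact this
    rw [hj', zero_mul] at e1
    rw [hi', one_mul] at e2
    set θ := Real.pi / M i j with hθ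
    have f1 : Real.sin (2 * n * θ) = 0 := by
      rw [e1]; congr 1; push_cast; ring
    have f2 : Real.sin θ = Real.sin (2 * n * θ + θ) := by
      rw [e2]; congr 1; push_cast; ring
    rw [Real.sin_add, f1, zero_mul, zero_add] at f2
    have f3 : Real.cos (2 * n * θ) = 1 := by
      have : (Real.cos (2 * n * θ) - 1) * Real.sin θ = 0 := by linarith
      rcases mul_eq_zero.1 this with h | h
      · linarith
      · exact absurd h hsin.ne'
    obtain ⟨k, hk⟩ := (Real.cos_eq_one_iff _).1 f3
    have hm : (M i j : ℝ) ≠ 0 := by exact_mod_cast hpos.ne'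
    have hpi := Real.pi_ne_zero
    have f4 : (k : ℝ) * M i j = n := by
      rw [hθ] at hk
      field_simp at hk
      linarith
    have f5 : (k : ℤ) * (M i j : ℤ) = n := by exact_mod_cast f4
    have f6 : (M i j : ℤ) ∣ (n : ℤ) := ⟨k, by rw [← f5]; ring⟩
    exact_mod_cast f6

lemma simple_injective : Function.Injective cs.simple := by
  intro i j hij
  by_contra hne
  have h1 : (cs.simple i * cs.simple j) ^ 1 = 1 := by
    rw [pow_one, hij, cs.simple_mul_simple_self]
  have h2 := dvd_of_pow_eq_one cs hne h1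
  exact M.off_diagonal i j hne (Nat.dvd_one.1 h2)

lemma exists_simple_eq (θ : AutWS cs) (i : B) :
    ∃ j, cs.simple j = (θ : MulAut W) (cs.simple i) := by
  have h : (θ : MulAut W) '' Set.range cs.simple = Set.range cs.simple := θ.2
  have h2 : (θ : MulAut W) (cs.simple i) ∈ Set.range cs.simple := by
    rw [← h]; exact ⟨cs.simple i, ⟨i, rfl⟩, rfl⟩
  exact h2

/-- The permutation of the index set induced by `θ`. -/
noncomputable def perm0 (θ : AutWS cs) (i : B) : B := Classical.choose (exists_simple_eq cs θ i)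

lemma simple_perm0 (θ : AutWS cs) (i : B) :
    cs.simple (perm0 cs θ i) = (θ : MulAut W) (cs.simple i) :=
  Classical.choose_spec (exists_simple_eq cs θ i)

lemma perm0_mul (θ θ' : AutWS cs) (i : B) : perm0 cs (θ * θ') i = perm0 cs θ (perm0 cs θ' i) := by
  apply simple_injective cs
  rw [simple_perm0, simple_perm0, simple_perm0]
  rfl

lemma perm0_one (i : B) : perm0 cs 1 i = i := by
  apply simple_injective cs
  rw [simple_perm0]
  rfl

/-- The permutation of the index set induced by `θ`. -/
noncomputable def perm : AutWS cs →* Equiv.Perm B where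
  toFun θ :=
    { toFun := perm0 cs θ
      invFun := perm0 cs θ⁻¹
      left_inv := fun i => by rw [← perm0_mul, inv_mul_cancel, perm0_one]
      right_inv := fun i => by rw [← perm0_mul, mul_inv_cancel, perm0_one] }
  map_one' := by ext i; exact perm0_one cs i
  map_mul' θ θ' := by ext i; exact perm0_mul cs θ θ' i

lemma simple_perm (θ : AutWS cs) (i : B) :
    cs.simple (perm cs θ i) = (θ : MulAut W) (cs.simple i) := simple_perm0 cs θ i

lemma M_perm (θ : AutWS cs) (i j : B) : M (perm cs θ i) (perm cs θ j) = M i j := by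
  have aux : ∀ (θ : AutWS cs) (i j : B), M (perm cs θ i) (perm cs θ j) ∣ M i j := by
    intro θ i j
    by_cases hij : i = j
    · subst hij
      rw [M.diagonal, M.diagonal]
    · apply dvd_of_pow_eq_one cs (fun e => hij ((perm cs θ).injective e))
      rw [simple_perm, simple_perm, ← map_mul, ← map_pow, cs.simple_mul_simple_pow, map_one]
  apply Nat.dvd_antisymm (aux θ i j)
  have := aux θ⁻¹ (perm cs θ i) (perm cs θ j)
  rw [map_inv, ← Equiv.Perm.mul_apply, ← Equiv.Perm.mul_apply, inv_mul_cancel,
    Equiv.Perm.one_apply, Equiv.Perm.one_apply] at this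
  exact this

/-- The linear action of `Aut(W,S)`. -/
noncomputable def La : AutWS cs →* ((B →₀ ℝ) ≃ₗ[ℝ] (B →₀ ℝ)) where
  toFun θ := Finsupp.domLCongr (perm cs θ)
  map_one' := by
    ext1 v
    ext b
    simp only [map_one, Finsupp.domLCongr_apply, LinearEquiv.coe_one, id_eq]
    rfl
  map_mul' θ θ' := by
    ext1 v
    ext b
    simp only [LinearEquiv.mul_apply, Finsupp.domLCongr_apply, map_mul]
    rfl

lemma La_sr (θ : AutWS cs) (i : B) : La cs θ (sr i) = sr (perm cs θ i) := by
  simp [La, sr, Finsupp.domLCongr_apply]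

lemma La_apply (θ : AutWS cs) (v : B →₀ ℝ) (b : B) : La cs θ v (perm cs θ b) = v b := by
  simp [La, Finsupp.domLCongr_apply]

lemma NN_La (θ : AutWS cs) {v : B →₀ ℝ} (hv : NN v) : NN (La cs θ v) := by
  intro b
  obtain ⟨b', rfl⟩ := (perm cs θ).surjective b
  rw [La_apply]
  exact hv b'

lemma La_inv_La (θ : AutWS cs) (v : B →₀ ℝ) : La cs θ⁻¹ (La cs θ v) = v := by
  rw [← LinearEquiv.mul_apply, ← map_mul, inv_mul_cancel, map_one, LinearEquiv.coe_one, id_eq]

lemma La_La_inv (θ : AutWS cs) (v : B →₀ ℝ) : La cs θ (La cs θ⁻¹ v) = v := by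
  rw [← LinearEquiv.mul_apply, ← map_mul, mul_inv_cancel, map_one, LinearEquiv.coe_one, id_eq]

lemma NN_of_La (θ : AutWS cs) {v : B →₀ ℝ} (hv : NN (La cs θ v)) : NN v := by
  have := NN_La cs θ⁻¹ hv
  rwa [La_inv_La] at this

lemma bil_La (θ : AutWS cs) (u v : B →₀ ℝ) : bil M (La cs θ u) (La cs θ v) = bil M u v := by
  have h : (bil M).compl₁₂ (La cs θ : (B →₀ ℝ) →ₗ[ℝ] (B →₀ ℝ))
      (La cs θ : (B →₀ ℝ) →ₗ[ℝ] (B →₀ ℝ)) = bil M := by
    ext i j
    simp only [LinearMap.coe_comp, Function.comp_apply, Finsupp.lsingle_apply,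
      LinearMap.compl₁₂_apply, LinearEquiv.coe_coe]
    have e1 : (Finsupp.single i (1 : ℝ)) = sr i := rfl
    have e2 : (Finsupp.single j (1 : ℝ)) = sr j := rfl
    rw [e1, e2, La_sr, La_sr, bil_sr_sr, bil_sr_sr, gram, gram, M_perm]
  have := congrArg (fun L => L u v) h
  simpa using this

lemma rho_aut (θ : AutWS cs) : (rho cs).comp ((AutWS cs).subtype θ).toMonoidHom =
    (MulAut.conj (La cs θ)).toMonoidHom.comp (rho cs) := by
  apply cs.ext_simple
  intro i
  simp only [MonoidHom.coe_comp, Function.comp_apply, MulEquiv.coe_toMonoidHom, MulAut.conj_apply,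
    Subgroup.coe_subtype]
  rw [← simple_perm, rho_simple, rho_simple]
  ext1 v
  rw [LinearEquiv.mul_apply, LinearEquiv.mul_apply, ← map_inv, sig_apply, sig_apply, map_sub,
    map_smul, La_La_inv, La_sr]
  congr 3
  rw [← La_sr, ← bil_La cs θ⁻¹, La_inv_La]

/-- The action of `W⁺` on the root system. -/
noncomputable def TPlus : WPlus cs →* ((B →₀ ℝ) ≃ₗ[ℝ] (B →₀ ℝ)) :=
  SemidirectProduct.lift (rho cs) (La cs) (fun θ => rho_aut cs θ)

lemma TPlus_apply (g : WPlus cs) (v : B →₀ ℝ) :
    TPlus cs g v = rho cs g.left (La cs g.right v) := by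
  conv_lhs => rw [← SemidirectProduct.inl_left_mul_inr_right g]
  rw [map_mul, LinearEquiv.mul_apply, TPlus, SemidirectProduct.lift_inl,
    SemidirectProduct.lift_inr]

lemma TPlus_inv_apply (g : WPlus cs) (v : B →₀ ℝ) :
    TPlus cs g⁻¹ v = La cs g.right⁻¹ (rho cs g.left⁻¹ v) := by
  have h : TPlus cs g (La cs g.right⁻¹ (rho cs g.left⁻¹ v)) = v := by
    rw [TPlus_apply, La_La_inv, ← LinearEquiv.mul_apply, ← map_mul, mul_inv_cancel, map_one,
      LinearEquiv.coe_one, id_eq]
  conv_lhs => rw [← h]
  rw [← LinearEquiv.mul_apply, ← map_mul, inv_mul_cancel, map_one, LinearEquiv.coe_one, id_eq]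

lemma rho_aut_apply (θ : AutWS cs) (w : W) (v : B →₀ ℝ) :
    rho cs ((θ : MulAut W) w) (La cs θ v) = La cs θ (rho cs w v) := by
  have h := DFunLike.congr_fun (rho_aut cs θ) w
  simp only [MonoidHom.coe_comp, Function.comp_apply, MulEquiv.coe_toMonoidHom,
    MulAut.conj_apply, Subgroup.coe_subtype] at h
  rw [h, LinearEquiv.mul_apply, LinearEquiv.mul_apply, ← map_inv, La_inv_La]

lemma refOf_aut (θ : AutWS cs) {t : W} {γ : B →₀ ℝ} (h : RefOf cs t γ) :
    RefOf cs ((θ : MulAut W) t) (La cs θ γ) := by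
  obtain ⟨w, i, rfl, rfl⟩ := h
  refine ⟨(θ : MulAut W) w, perm cs θ i, ?_, ?_⟩
  · rw [map_mul, map_mul, map_inv, simple_perm]
  · rw [← rho_aut_apply, La_sr]

/-- `W⁺` as a group acting on the root system. -/
noncomputable def plusAction : RootAction cs (WPlus cs) where
  ι := incl cs
  T := TPlus cs
  len := lenPlus cs
  T_ι w := SemidirectProduct.lift_inl _ _ _ _
  bil_T g u v := by rw [TPlus_apply, TPlus_apply, bil_rho, bil_La]
  conj g t γ h := by
    refine ⟨g.left * ((g.right : AutWS cs) : MulAut W) t * g.left⁻¹, ?_, ?_⟩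
    · rw [TPlus_apply]
      exact (refOf_aut cs g.right h).conj g.left
    · apply SemidirectProduct.ext
      · simp [incl, mul_assoc]
      · simp [incl]
  len_simple i g := by
    simp only [lenPlus, incl, SemidirectProduct.mul_left, SemidirectProduct.left_inl,
      SemidirectProduct.right_inl, map_one, MulAut.one_apply]
    exact cs.length_simple_mul _ i
  len_lt g h h1 h2 := by
    rw [TPlus_inv_apply, ← map_neg] at h2
    have h3 := NN_of_La cs _ h2
    simp only [lenPlus, incl, SemidirectProduct.mul_left, SemidirectProduct.left_inl,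
      SemidirectProduct.right_inl, map_one, MulAut.one_apply]
    exact length_lt_of_NN_neg h h1 h3
  len_gt g h h1 h2 := by
    rw [TPlus_inv_apply] at h2
    have h3 := NN_of_La cs _ h2
    simp only [lenPlus, incl, SemidirectProduct.mul_left, SemidirectProduct.left_inl,
      SemidirectProduct.right_inl, map_one, MulAut.one_apply]
    exact length_gt_of_NN h h1 h3
  fin g := by
    refine Set.Finite.subset ((finite_inversions (cs := cs) g.left).preimage
      (f := La cs g.right) (La cs g.right).injective.injOn) ?_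
    rintro γ ⟨h1, h2, h3⟩
    obtain ⟨t, ht⟩ := h1.exists_refOf
    refine ⟨(refOf_aut cs g.right ht).isRoot, NN_La cs _ h2, ?_⟩
    rw [TPlus_apply] at h3
    exact h3

/-- The Bruhat order of `W⁺` from chains in `W⁺`. -/
lemma bruhatPlusLE_of_Le {x y : WPlus cs} (h : (plusAction cs).Le x y) : BruhatPlusLE cs x y := by
  induction h with
  | refl => exact ⟨rfl, Relation.ReflTransGen.refl⟩
  | tail _ hbc ih =>
    obtain ⟨t, ht, hc, hlen⟩ := hbc
    obtain ⟨ih1, ih2⟩ := ih
    rename_i b c _
    have hc' : c = incl cs t * b := hc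
    refine ⟨?_, ih2.tail ⟨t, ht, ?_, hlen⟩⟩
    · rw [ih1, hc']; simp [incl]
    · rw [hc']; simp [incl]

/-- **The strong exchange condition for twisted involutions**: property (QP1) for a `W`-conjugacy
class of twisted involutions implies the strong exchange property. -/
theorem strong_exchange (K : Set (WPlus cs)) (hK : IsWConjClass cs K)
    (hQP : ∀ r, cs.IsReflection r → ∀ w ∈ K,
      lenPlus cs (incl cs r * w * incl cs r) = lenPlus cs w → incl cs r * w * incl cs r = w)
    (r : W) (hr : cs.IsReflection r) (w : WPlus cs) (hw : w ∈ K)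
    (hlt : lenPlus cs (incl cs r * w * incl cs r) < lenPlus cs w) :
    BruhatPlusLT cs (incl cs r * w * incl cs r) w := by
  obtain ⟨x, hx, rfl⟩ := hK
  obtain ⟨v, hv⟩ := hw
  have hx' : x * x = 1 := hx
  have hww : w * w = 1 := by
    rw [hv]
    calc incl cs v * x * (incl cs v)⁻¹ * (incl cs v * x * (incl cs v)⁻¹)
        = incl cs v * (x * x) * (incl cs v)⁻¹ := by group
      _ = 1 := by rw [hx']; group
  have hmain := (plusAction cs).main hww (fun v' t ht hlen => by
    refine hQP t ht _ ⟨v' * v, ?_⟩ hlen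
    show incl cs v' * w * incl cs v'⁻¹ = _
    rw [hv, map_mul, map_inv]
    group) hr hlt
  refine ⟨bruhatPlusLE_of_Le cs hmain, ?_⟩
  intro e
  rw [e] at hlt
  exact lt_irrefl _ hlt

end Pool.Agent.Helper38_Coxeter
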