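import Pool.Agent.Helper38_Coxeter.FiniteOrder

set_option autoImplicit false

/-!
# A positive definite plane spanned by two roots is conjugate to a standard one
-/

open Module

namespace Pool.Agent.Helper38_Coxeter

variable {B W : Type*} [Group W] {M : CoxeterMatrix B} {cs : CoxeterSystem M W}

/-- A strictly positive functional not vanishing on a given finite set of nonzero vectors. -/
lemma exists_generic {Y : Set (B →₀ ℝ)} (hY : Y.Finite) (h0 : ∀ y ∈ Y, y ≠ 0) :
    ∃ p : B → ℝ, (∀ b, 0 < p b) ∧ ∀ y ∈ Y, Finsupp.linearCombination ℝ p y ≠ 0 := by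
  classical
  induction Y, hY using Set.Finite.induction_on with
  | empty => exact ⟨fun _ => 1, fun _ => one_pos, by simp⟩
  | @insert y0 Y hy0 hYf ih =>
    obtain ⟨p, hp, hpY⟩ := ih (fun y hy => h0 y (Set.mem_insert_of_mem _ hy))
    have hy0' : y0 ≠ 0 := h0 y0 (Set.mem_insert _ _)
    obtain ⟨b0, hb0⟩ : ∃ b, y0 b ≠ 0 := by
      by_contra hcon
      push Not at hcon
      exact hy0' (Finsupp.ext hcon)
    -- the bad parameters
    have hbad : {s : ℝ | ∃ y ∈ insert y0 Y, Finsupp.linearCombination ℝ p y + s * y b0 = 0}.Finite := by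
      have : {s : ℝ | ∃ y ∈ insert y0 Y, Finsupp.linearCombination ℝ p y + s * y b0 = 0} =
          ⋃ y ∈ insert y0 Y, {s : ℝ | Finsupp.linearCombination ℝ p y + s * y b0 = 0} := by
        ext s; simp
      rw [this]
      refine Set.Finite.biUnion (hYf.insert y0) ?_
      intro y hy
      by_cases hyb : y b0 = 0
      · have hyY : y ∈ Y := by
          rcases hy with rfl | hy
          · exact absurd hyb hb0
          · exact hy
        convert! Set.finite_empty
        ext s
        simp only [hyb, mul_zero, add_zero, Set.mem_ofPred_eq, Set.mem_empty_iff_false, iff_false]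
        exact hpY y hyY
      · refine (Set.finite_singleton (-(Finsupp.linearCombination ℝ p y) / y b0)).subset ?_
        intro s hs
        simp only [Set.mem_ofPred_eq] at hs
        simp only [Set.mem_singleton_iff]
        field_simp
        linarith
    obtain ⟨s, hs0, hs⟩ := (Set.Ioi_infinite (0 : ℝ)).exists_notMem_finite hbad
    have hs0' : 0 < s := hs0
    refine ⟨fun b => p b + s * (if b = b0 then 1 else 0), fun b => ?_, fun y hy => ?_⟩
    · have := hp b
      dsimp only
      split_ifs <;> nlinarith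
    · have e : Finsupp.linearCombination ℝ (fun b => p b + s * (if b = b0 then (1 : ℝ) else 0)) y =
          Finsupp.linearCombination ℝ p y + s * y b0 := by
        simp only [Finsupp.linearCombination_apply, Finsupp.sum, smul_eq_mul, mul_add,
          Finset.sum_add_distrib]
        congr 1
        rw [Finset.sum_eq_single b0]
        · simp; ring
        · intro b _ hb; simp [hb]
        · intro hb
          rw [Finsupp.notMem_support_iff.1 hb]; ring
      rw [e]
      intro hcon
      exact hs ⟨y, hy, hcon⟩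

lemma pair_indep {t t' : W} {γ δ : B →₀ ℝ} (h : RefOf cs t γ) (h' : RefOf cs t' δ)
    (hc : (bil M γ δ) ^ 2 < 1) {a b : ℝ} (hab : a • γ + b • δ = 0) : a = 0 ∧ b = 0 := by
  have h1 : a + b * bil M γ δ = 0 := by
    have := congrArg (bil M γ) hab
    simpa [h.isRoot.bil_self] using this
  have h2 : a * bil M γ δ + b = 0 := by
    have := congrArg (bil M δ) hab
    simpa [h'.isRoot.bil_self, bil_symm M δ γ] using this
  have h3 : b * (1 - (bil M γ δ) ^ 2) = 0 := by linear_combination h2 - bil M γ δ * h1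
  have h4 : b = 0 := by
    rcases mul_eq_zero.1 h3 with h | h
    · exact h
    · exfalso; linarith
  subst h4
  simp at h1
  exact ⟨h1, rfl⟩

lemma mem_plane_rho_sub {t : W} {γ : B →₀ ℝ} (h : RefOf cs t γ) {P : Submodule ℝ (B →₀ ℝ)}
    (hγ : γ ∈ P) (y : B →₀ ℝ) : rho cs t y - y ∈ P := by
  rw [h.rho_apply]
  have : y - (2 * bil M γ y) • γ - y = -((2 * bil M γ y) • γ) := by abel
  rw [this]
  exact P.neg_mem (P.smul_mem _ hγ)

lemma mem_plane_mul {w w' : W} {P : Submodule ℝ (B →₀ ℝ)} (h : ∀ y, rho cs w y - y ∈ P)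
    (h' : ∀ y, rho cs w' y - y ∈ P) (y : B →₀ ℝ) : rho cs (w * w') y - y ∈ P := by
  rw [map_mul, LinearEquiv.mul_apply]
  have : rho cs w (rho cs w' y) - y =
      (rho cs w (rho cs w' y) - rho cs w' y) + (rho cs w' y - y) := by abel
  rw [this]
  exact P.add_mem (h _) (h' _)

lemma mem_plane_pow {w : W} {P : Submodule ℝ (B →₀ ℝ)} (h : ∀ y, rho cs w y - y ∈ P)
    (k : ℕ) (y : B →₀ ℝ) : rho cs (w ^ k) y - y ∈ P := by
  induction k generalizing y with
  | zero => simp
  | succ k ih =>
    rw [pow_succ]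
    exact mem_plane_mul ih h y

/-- The main standardization result. -/
theorem exists_standard {t t' : W} {γ δ : B →₀ ℝ} (h : RefOf cs t γ) (h' : RefOf cs t' δ)
    (hc : (bil M γ δ) ^ 2 < 1) :
    ∃ (v : W) (i j : B), i ≠ j ∧
      (Submodule.span ℝ {γ, δ}).map (rho cs v : (B →₀ ℝ) →ₗ[ℝ] (B →₀ ℝ)) =
        Submodule.span ℝ {sr i, sr j} := by
  classical
  obtain ⟨n, hn, hgn⟩ := exists_pow_eq_one h h' hc
  set g := t * t' with hg
  set P := Submodule.span ℝ {γ, δ} with hP
  have hγP : γ ∈ P := Submodule.subset_span (by simp)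
  have hδP : δ ∈ P := Submodule.subset_span (by simp)
  have hgP : ∀ (k : ℕ) (y : B →₀ ℝ), rho cs (g ^ k) y - y ∈ P :=
    mem_plane_pow (mem_plane_mul (mem_plane_rho_sub h hγP) (mem_plane_rho_sub h' hδP))
  -- the averaging operator
  let Avg : (B →₀ ℝ) →ₗ[ℝ] (B →₀ ℝ) := ∑ k ∈ Finset.range n, (rho cs (g ^ k)).toLinearMap
  have hAvg : ∀ y, Avg y = ∑ k ∈ Finset.range n, rho cs (g ^ k) y := by
    intro y
    simp [Avg, LinearMap.sum_apply]
  have hAa : ∀ y, Avg y - (n : ℝ) • y ∈ P := by
    intro y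
    rw [hAvg]
    have : ∑ k ∈ Finset.range n, rho cs (g ^ k) y - (n : ℝ) • y =
        ∑ k ∈ Finset.range n, (rho cs (g ^ k) y - y) := by
      rw [Finset.sum_sub_distrib, Finset.sum_const, Finset.card_range, Nat.cast_smul_eq_nsmul]
    rw [this]
    exact P.sum_mem fun k _ => hgP k y
  have hAb : ∀ y ∈ P, Avg y = 0 := by
    intro y hy
    have hzP : Avg y ∈ P := by
      have := P.add_mem (hAa y) (P.smul_mem (n : ℝ) hy)
      simpa using this
    have hgz : rho cs g (Avg y) = Avg y := by
      rw [hAvg, map_sum]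
      have e1 : ∀ k, rho cs g (rho cs (g ^ k) y) = rho cs (g ^ (k + 1)) y := by
        intro k
        rw [← LinearEquiv.mul_apply, ← map_mul, ← pow_succ']
      simp_rw [e1]
      have e2 := Finset.sum_range_succ (fun k => rho cs (g ^ k) y) n
      have e3 := Finset.sum_range_succ' (fun k => rho cs (g ^ k) y) n
      rw [e2] at e3
      simp only [hgn, pow_zero] at e3
      exact (add_right_cancel e3).symm
    set z := Avg y with hz
    have h1 : rho cs t' z = rho cs t z := by
      have : rho cs t (rho cs g z) = rho cs t z := by rw [hgz]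
      rw [← this, hg, ← LinearEquiv.mul_apply, ← map_mul, ← mul_assoc, h.isReflection.mul_self,
        one_mul]
    rw [h.rho_apply, h'.rho_apply] at h1
    have h2 : (2 * bil M γ z) • γ + (-(2 * bil M δ z)) • δ = 0 := by
      have := sub_right_injective h1
      rw [neg_smul, this]
      abel
    obtain ⟨h3, h4⟩ := pair_indep h h' hc h2
    have h3' : bil M γ z = 0 := by linarith
    have h4' : bil M δ z = 0 := by linarith
    obtain ⟨a, b, hab⟩ := Submodule.mem_span_pair.1 hzP
    rw [← hab] at h3' h4'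
    simp only [map_add, map_smul, h.isRoot.bil_self, h'.isRoot.bil_self, bil_symm M δ γ,
      smul_eq_mul, mul_one] at h3' h4'
    have h5 : b * (1 - (bil M γ δ) ^ 2) = 0 := by linear_combination h4' - bil M γ δ * h3'
    have h6 : b = 0 := by
      rcases mul_eq_zero.1 h5 with h | h
      · exact h
      · exfalso; linarith
    have h7 : a = 0 := by rw [h6] at h3'; linarith
    rw [← hab, h6, h7]; simp
  -- the finite set of roots that become negative somewhere on the orbit
  set F : Set (B →₀ ℝ) := {ε | IsRoot cs ε ∧ NN ε ∧ ∃ k, k < n ∧ NN (-(rho cs (g ^ k) ε))} with hF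
  have hFfin : F.Finite := by
    refine Set.Finite.subset (Set.Finite.biUnion (Finset.range n).finite_toSet
      (fun k _ => finite_inversions (cs := cs) (g ^ k))) ?_
    rintro ε ⟨h1, h2, k, hk, h3⟩
    simp only [Finset.coe_range, Set.mem_iUnion]
    exact ⟨k, hk, h1, h2, h3⟩
  obtain ⟨p, hp, hpY⟩ := exists_generic (Y := (Avg '' F) \ {0})
    ((hFfin.image _).subset Set.sdiff_subset) (by rintro y ⟨_, hy⟩; simpa using hy)
  set q : (B →₀ ℝ) →ₗ[ℝ] ℝ := (Finsupp.linearCombination ℝ p).comp Avg with hq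
  have hqapp : ∀ y, q y = ∑ k ∈ Finset.range n, Finsupp.linearCombination ℝ p (rho cs (g ^ k) y) := by
    intro y
    rw [hq, LinearMap.comp_apply, hAvg, map_sum]
  have hqP : ∀ y ∈ P, q y = 0 := by
    intro y hy
    rw [hq, LinearMap.comp_apply, hAb y hy, map_zero]
  have hq_pos : ∀ ε, IsRoot cs ε → NN ε → ε ∉ F → 0 < q ε := by
    intro ε h1 h2 h3
    rw [hqapp]
    apply Finset.sum_pos
    · intro k hk
      have hk' : k < n := Finset.mem_range.1 hk
      have h4 : IsRoot cs (rho cs (g ^ k) ε) := h1.rho _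
      have h5 : NN (rho cs (g ^ k) ε) := by
        rcases h4.nn_or with h5 | h5
        · exact h5
        · exact absurd ⟨h1, h2, k, hk', h5⟩ h3
      exact linearCombination_pos hp h5 h4.ne_zero
    · exact ⟨0, Finset.mem_range.2 hn⟩
  have hgen : ∀ ε, IsRoot cs ε → q ε = 0 → ε ∈ P := by
    have aux : ∀ ε, IsRoot cs ε → NN ε → q ε = 0 → ε ∈ P := by
      intro ε h1 h2 h3
      by_cases h4 : ε ∈ F
      · have h5 : Avg ε = 0 := by
          by_contra h6
          exact hpY (Avg ε) ⟨⟨ε, h4, rfl⟩, h6⟩ h3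
        have h6 := hAa ε
        rw [h5, zero_sub] at h6
        have h7 := P.neg_mem h6
        rw [neg_neg] at h7
        have hn' : (n : ℝ) ≠ 0 := by exact_mod_cast hn.ne'
        exact (P.smul_mem_iff hn').1 h7
      · exact absurd h3 (hq_pos ε h1 h2 h4).ne'
    intro ε h1 h3
    rcases h1.nn_or with h2 | h2
    · exact aux ε h1 h2 h3
    · have := aux (-ε) h1.neg h2 (by rw [map_neg, h3, neg_zero])
      simpa using P.neg_mem this
  -- minimization
  let N : W → Set (B →₀ ℝ) := fun v => {ε | IsRoot cs ε ∧ NN ε ∧ q (rho cs v⁻¹ ε) < 0}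
  have hN1 : ∀ ε, IsRoot cs ε → NN ε → q ε < 0 → ε ∈ F := by
    intro ε h1 h2 h3
    by_contra h4
    exact absurd h3 (hq_pos ε h1 h2 h4).le.not_gt
  have hNfin : ∀ v, (N v).Finite := by
    intro v
    refine ((hFfin.image (rho cs v)).union (finite_inversions (cs := cs) v⁻¹)).subset ?_
    rintro ε ⟨h1, h2, h3⟩
    rcases (h1.rho v⁻¹).nn_or with h4 | h4
    · left
      refine ⟨rho cs v⁻¹ ε, hN1 _ (h1.rho _) h4 h3, ?_⟩
      rw [← LinearEquiv.mul_apply, ← map_mul, mul_inv_cancel, map_one, LinearEquiv.coe_one, id_eq]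
    · right
      exact ⟨h1, h2, h4⟩
  set v := Function.argmin (fun v => (N v).ncard) with hv
  have hvmin : ∀ v', (N v).ncard ≤ (N v').ncard := fun v' =>
    Function.argmin_le (fun v => (N v).ncard) v'
  have hdom : ∀ b, 0 ≤ q (rho cs v⁻¹ (sr b)) := by
    intro b
    by_contra hcon
    push Not at hcon
    have hbN : sr b ∈ N v := ⟨isRoot_sr b, NN_sr b, hcon⟩
    have hsub : N (cs.simple b * v) ⊆ (sig M b) '' (N v \ {sr b}) := by
      rintro ε ⟨h1, h2, h3⟩
      have e1 : rho cs (cs.simple b * v)⁻¹ ε = rho cs v⁻¹ (sig M b ε) := by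
        rw [mul_inv_rev, cs.inv_simple, map_mul, LinearEquiv.mul_apply, rho_simple]
      rw [e1] at h3
      have hεb : ε ≠ sr b := by
        rintro rfl
        rw [sig_self, map_neg, map_neg] at h3
        linarith
      refine ⟨sig M b ε, ⟨⟨?_, NN_sig h1 h2 b hεb, h3⟩, ?_⟩, ?_⟩
      · rw [← rho_simple cs]; exact h1.rho _
      · intro e2
        simp only [Set.mem_singleton_iff] at e2
        have e3 : ε = -(sr b) := by
          rw [← sig_self (M := M) b, ← e2, ← LinearEquiv.mul_apply, sig_mul_sig_self,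
            LinearEquiv.coe_one, id_eq]
        rw [e3] at h2
        exact (isRoot_sr (cs := cs) b).not_both (NN_sr b) h2
      · rw [← LinearEquiv.mul_apply, sig_mul_sig_self, LinearEquiv.coe_one, id_eq]
    have h4 : (N (cs.simple b * v)).ncard ≤ (N v \ {sr b}).ncard := by
      refine (Set.ncard_le_ncard hsub (((hNfin v).subset Set.sdiff_subset).image _)).trans ?_
      exact Set.ncard_image_le ((hNfin v).subset Set.sdiff_subset)
    have h5 : (N v \ {sr b}).ncard < (N v).ncard :=
      Set.ncard_sdiff_singleton_lt_of_mem hbN (hNfin v)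
    have h6 := hvmin (cs.simple b * v)
    omega
  clear_value v
  set P1 := P.map (rho cs v : (B →₀ ℝ) →ₗ[ℝ] (B →₀ ℝ)) with hP1
  have hinvv : ∀ y, rho cs v (rho cs v⁻¹ y) = y := fun y => by
    rw [← LinearEquiv.mul_apply, ← map_mul, mul_inv_cancel, map_one, LinearEquiv.coe_one, id_eq]
  have hinvv' : ∀ y, rho cs v⁻¹ (rho cs v y) = y := fun y => by
    rw [← LinearEquiv.mul_apply, ← map_mul, inv_mul_cancel, map_one, LinearEquiv.coe_one, id_eq]
  have hmem : ∀ y, rho cs v⁻¹ y ∈ P → y ∈ P1 := by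
    intro y hy
    exact ⟨rho cs v⁻¹ y, hy, hinvv y⟩
  -- support of roots in P1
  have hsupp : ∀ ε, IsRoot cs ε → q (rho cs v⁻¹ ε) = 0 → ∀ b, ε b ≠ 0 → sr b ∈ P1 := by
    have aux : ∀ ε, NN ε → q (rho cs v⁻¹ ε) = 0 → ∀ b, ε b ≠ 0 → sr b ∈ P1 := by
      intro ε h1 h2 b hb
      apply hmem
      apply hgen _ ((isRoot_sr b).rho _)
      set L : (B →₀ ℝ) →ₗ[ℝ] ℝ := q.comp (rho cs v⁻¹ : (B →₀ ℝ) →ₗ[ℝ] (B →₀ ℝ)) with hL
      have hLe : L = Finsupp.linearCombination ℝ (fun b => q (rho cs v⁻¹ (sr b))) := by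
        ext b
        simp [hL, sr]
      have h3 : L ε = 0 := h2
      rw [hLe, Finsupp.linearCombination_apply, Finsupp.sum] at h3
      have h4 := (Finset.sum_eq_zero_iff_of_nonneg
        (fun b _ => mul_nonneg (h1 b) (hdom b))).1 h3 b (Finsupp.mem_support_iff.2 hb)
      exact (mul_eq_zero.1 h4).resolve_left hb
    intro ε h1 h2 b hb
    rcases h1.nn_or with h3 | h3
    · exact aux ε h3 h2 b hb
    · refine aux (-ε) h3 (by rw [map_neg, map_neg, h2, neg_zero]) b ?_
      simpa using hb
  have hγs : ∀ b, rho cs v γ b ≠ 0 → sr b ∈ P1 :=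
    hsupp _ (h.isRoot.rho v) (by rw [hinvv']; exact hqP γ hγP)
  have hδs : ∀ b, rho cs v δ b ≠ 0 → sr b ∈ P1 :=
    hsupp _ (h'.isRoot.rho v) (by rw [hinvv']; exact hqP δ hδP)
  obtain ⟨i, hi⟩ : ∃ i, rho cs v γ i ≠ 0 := by
    by_contra hcon
    push Not at hcon
    exact (h.isRoot.rho v).ne_zero (Finsupp.ext hcon)
  obtain ⟨j, hji, hj⟩ : ∃ j, j ≠ i ∧ sr j ∈ P1 := by
    by_contra hcon
    push Not at hcon
    have e1 : rho cs v γ = (rho cs v γ i) • sr i := by
      ext b
      rw [Finsupp.smul_apply, sr, Finsupp.single_apply, smul_eq_mul]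
      by_cases hb : b = i
      · subst hb; simp
      · rw [if_neg (Ne.symm hb), mul_zero]
        by_contra hb'
        exact hcon b hb (hγs b hb')
    have e2 : rho cs v δ = (rho cs v δ i) • sr i := by
      ext b
      rw [Finsupp.smul_apply, sr, Finsupp.single_apply, smul_eq_mul]
      by_cases hb : b = i
      · subst hb; simp
      · rw [if_neg (Ne.symm hb), mul_zero]
        by_contra hb'
        exact hcon b hb (hδs b hb')
    generalize (rho cs v γ) i = a at e1 hi
    generalize (rho cs v δ) i = c at e2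
    have e3 : rho cs v (c • γ + (-a) • δ) = 0 := by
      rw [map_add, map_smul, map_smul, e1, e2]
      module
    have e4 : c • γ + (-a) • δ = 0 := by
      apply (rho cs v).injective
      rw [e3, map_zero]
    have e5 := (pair_indep h h' hc e4).2
    exact hi (by linarith)
  have hiP : sr i ∈ P1 := hγs i hi
  refine ⟨v, i, j, Ne.symm hji, ?_⟩
  -- dimension count
  have hle : Submodule.span ℝ {(sr i : B →₀ ℝ), sr j} ≤ P1 := by
    rw [Submodule.span_le]
    rintro y (rfl | rfl)
    · exact hiP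
    · exact hj
  have : FiniteDimensional ℝ P := by
    rw [hP]
    exact FiniteDimensional.span_of_finite ℝ (Set.toFinite _)
  have : FiniteDimensional ℝ P1 := by
    rw [hP1]; infer_instance
  have hfr1 : Module.finrank ℝ P1 ≤ 2 := by
    rw [hP1]
    refine (Submodule.finrank_map_le _ _).trans ?_
    rw [hP]
    have hset : ({γ, δ} : Set (B →₀ ℝ)) = (({γ, δ} : Finset (B →₀ ℝ)) : Set (B →₀ ℝ)) := by
      simp
    rw [hset]
    exact (finrank_span_finset_le_card _).trans Finset.card_le_two
  have hfr2 : Module.finrank ℝ (Submodule.span ℝ {(sr i : B →₀ ℝ), sr j}) = 2 := by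
    have hli : LinearIndependent ℝ ![(sr i : B →₀ ℝ), sr j] := by
      rw [LinearIndependent.pair_iff]
      intro a b hab
      have h1 := DFunLike.congr_fun hab i
      have h2 := DFunLike.congr_fun hab j
      simp [sr, hji, Ne.symm hji] at h1 h2
      exact ⟨h1, h2⟩
    have h3 := finrank_span_eq_card hli
    have hr : Set.range ![(sr i : B →₀ ℝ), sr j] = {sr i, sr j} := by
      simp [Matrix.range_cons, Set.pair_comm]
    rw [hr] at h3
    exact h3
  exact (Submodule.eq_of_le_of_finrank_le hle (by rw [hfr2]; exact hfr1)).symm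

end Pool.Agent.Helper38_Coxeter
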